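import Mathlib

/-!
# The lattice `E₈`, its automorphisms and spherical designs inside it: definitions

The vector `v / 2` of the problem is described by the integer vector `v`.
-/

set_option autoImplicit false

namespace Pool.Agent.H159.EW

open MeasureTheory

/-- `v` represents the vector `v / 2` of `E₈`: all coordinates of `v` have the same parity and
the sum of the coordinates is divisible by `4`. -/
def InE8 (v : Fin 8 → ℤ) : Prop := (∀ i j, v i % 2 = v j % 2) ∧ (∑ i, v i) % 4 = 0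

instance (v : Fin 8 → ℤ) : Decidable (InE8 v) := by unfold InE8; infer_instance

/-- `4` times the inner product of `v / 2` and `w / 2`. -/
def ip (v w : Fin 8 → ℤ) : ℤ := ∑ i, v i * w i

/-- The `240` vectors `r` for which `r / 2` is a minimal vector of `E₈`. -/
noncomputable def roots : Finset (Fin 8 → ℤ) :=
  (Fintype.piFinset fun _ : Fin 8 => Finset.Icc (-2 : ℤ) 2).filter
    fun r => InE8 r ∧ ∑ i, r i ^ 2 = 8

/-- The lattice `E₈` as a subset of `ℚ⁸`. -/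
def E8 : Set (Fin 8 → ℚ) := {x | ∃ v : Fin 8 → ℤ, InE8 v ∧ ∀ i, x i = (v i : ℚ) / 2}

/-- `2 E₈` as a subset of `ℚ⁸`. -/
def twoE8 : Set (Fin 8 → ℚ) := {x | ∃ v : Fin 8 → ℤ, InE8 v ∧ ∀ i, x i = (v i : ℚ)}

/-- The squared length. -/
def nsq (x : Fin 8 → ℚ) : ℚ := ∑ i, x i ^ 2

/-- The automorphisms of `E₈`: the linear isometries of `ℚ⁸` that map `E₈` onto `E₈`
(these are the elements of the Weyl group `W(E₈)`). -/
def IsAut (g : (Fin 8 → ℚ) ≃ₗ[ℚ] (Fin 8 → ℚ)) : Prop :=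
  (∀ x, nsq (g x) = nsq x) ∧ ∀ x, g x ∈ E8 ↔ x ∈ E8

/-- `X` is stable under all automorphisms of `E₈`. -/
def Stable (X : Finset (Fin 8 → ℚ)) : Prop :=
  ∀ g : (Fin 8 → ℚ) ≃ₗ[ℚ] (Fin 8 → ℚ), IsAut g → ∀ x ∈ X, g x ∈ X

/-- `X`, a set of vectors of squared length `N`, is a spherical `t`-design (after rescaling),
in the form used in the frozen statement of the problem. -/
def IsDesign (t : ℕ) (N : ℝ) (X : Finset (Fin 8 → ℚ)) : Prop :=
  ∀ p : MvPolynomial (Fin 8) ℝ, p.totalDegree ≤ t →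
    (∑ x ∈ X, MvPolynomial.eval (fun i => (x i : ℝ)) p)
      * ((volume : Measure (EuclideanSpace ℝ (Fin 8))).toSphere Set.univ).toReal
    = (X.card : ℝ) * ∫ u, MvPolynomial.eval
        (fun i => Real.sqrt N * (u : EuclideanSpace ℝ (Fin 8)) i) p
        ∂((volume : Measure (EuclideanSpace ℝ (Fin 8))).toSphere)

/-- The harmonic invariant of degree `8` of `W(E₈)` (up to a constant factor):
`∑_r (x·r)^8 - 30 (x·x)^4`, the sum over the `240` minimal vectors. -/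
noncomputable def G (x : Fin 8 → ℚ) : ℚ :=
  ∑ r ∈ roots, ((∑ i, x i * (r i : ℚ)) / 2) ^ 8 - 30 * nsq x ^ 4

/-! ## Statements -/

/-- Job CL. -/
def S_class : Prop :=
  (∀ v, InE8 v → (∑ i, v i ^ 2) / 8 % 2 = 1 →
    (roots.filter fun r => ip v r / 4 % 2 = 1).card = 112) ∧
  (∀ v, InE8 v → (∑ i, v i ^ 2) / 8 % 2 = 0 → (¬ ∃ w, InE8 w ∧ v = fun i => 2 * w i) →
    (roots.filter fun r => ip v r / 4 % 2 = 1).card = 128 ∧
    ∑ r ∈ roots.filter (fun r => ip v r / 4 % 2 = 1), ip v r ^ 2 = 128 * ∑ i, v i ^ 2)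

/-- Job BA. -/
def S_basic : Prop :=
  (∀ v w, InE8 v → InE8 w → (4 : ℤ) ∣ ip v w) ∧ (∀ v, InE8 v → (8 : ℤ) ∣ ∑ i, v i ^ 2)

/-- Job GV: the `2`-adic valuation of `G`. -/
def S_gval : Prop :=
  ∀ v, InE8 v → (¬ ∃ w, InE8 w ∧ v = fun i => 2 * w i) →
    ((∑ i, v i ^ 2) / 8 % 2 = 1 →
      ∃ g : ℤ, G (fun i => (v i : ℚ) / 2) = 16 * (2 * g + 1)) ∧
    ((∑ i, v i ^ 2) / 8 % 2 = 0 →
      ∃ g : ℤ, G (fun i => (v i : ℚ) / 2) = 128 * (2 * g + 1))

/-- Job GI: `G` is homogeneous of degree `8`, and invariant under the automorphisms of `E₈`. -/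
def S_ginv : Prop :=
  (∀ (c : ℚ) (x : Fin 8 → ℚ), G (fun i => c * x i) = c ^ 8 * G x) ∧
  (∀ g, IsAut g → ∀ x, G (g x) = G x)

/-- Job DV: a stable finite set of nonzero vectors has a cardinality divisible by `240`. -/
def S_div : Prop :=
  ∀ X : Finset (Fin 8 → ℚ), (0 : Fin 8 → ℚ) ∉ X → Stable X → 240 ∣ X.card

/-- Job MO: the eighth moment of a linear form on the sphere. -/
def S_mom : Prop :=
  ∀ y : Fin 8 → ℝ,
    (∫ u, (∑ i, y i * (u : EuclideanSpace ℝ (Fin 8)) i) ^ 8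
        ∂((volume : Measure (EuclideanSpace ℝ (Fin 8))).toSphere)) * 128
      = (∑ i, y i ^ 2) ^ 4
        * ((volume : Measure (EuclideanSpace ℝ (Fin 8))).toSphere Set.univ).toReal

/-- Job FIN: the orbits are finite. -/
def S_fin : Prop :=
  ∀ x : Fin 8 → ℚ, {y | ∃ g, IsAut g ∧ y = g x}.Finite

end Pool.Agent.H159.EW
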