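import Pool.Agent.H159.EW.J_GInv

set_option autoImplicit false
set_option maxRecDepth 100000

namespace Pool.Agent.H159.EW

/-! ## Lists of integers, evaluated by the kernel -/

def allL (S : List ℤ) : ℕ → List (List ℤ)
  | 0 => [[]]
  | n + 1 => (allL S n).flatMap fun l => S.map fun s => s :: l

def sqL : List ℤ → ℤ
  | [] => 0
  | a :: l => a * a + sqL l

def sumL : List ℤ → ℤ
  | [] => 0
  | a :: l => a + sumL l

def dotL : List ℤ → List ℤ → ℤ
  | a :: l, b :: m => a * b + dotL l m
  | _, _ => 0

def addL : List ℤ → List ℤ → List ℤ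
  | a :: l, b :: m => (a + b) :: addL l m
  | _, _ => []

def smulL (a : ℤ) : List ℤ → List ℤ
  | [] => []
  | b :: l => (a * b) :: smulL a l

def triL : List ℤ → List ℤ
  | [] => []
  | a :: l => smulL a (a :: l) ++ triL l

def rootsA : List (List ℤ) := ((allL [-2, 0, 2] 8) ++ (allL [-1, 1] 8)).filter
  (fun l => (sqL l == 8) && (sumL l % 4 == 0))

/-- representatives of `E₈ / 2 E₈`: even type with last coordinate `0` -/
def repE : List (List ℤ) := ((allL [0, 2] 7).filter (fun l => sumL l % 4 == 0)).flatMap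
  fun l => [l ++ [0], addL (l ++ [0]) [4, 0, 0, 0, 0, 0, 0, 0]]

/-- representatives of `E₈ / 2 E₈`: odd type with last coordinate `1` -/
def repO : List (List ℤ) := ((allL [-1, 1] 7).filter (fun l => (sumL l + 1) % 4 == 0)).flatMap
  fun l => [l ++ [1], addL (l ++ [1]) [4, 0, 0, 0, 0, 0, 0, 0]]

def oddR (u : List ℤ) : List (List ℤ) := rootsA.filter fun r => dotL u r / 4 % 2 == 1

def gram : List (List ℤ) → List ℤ
  | [] => [0, 0, 0, 0, 0, 0, 0, 0, 0, 0, 0, 0, 0, 0, 0, 0, 0, 0,
      0, 0, 0, 0, 0, 0, 0, 0, 0, 0, 0, 0, 0, 0, 0, 0, 0, 0]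
  | r :: l => addL (triL r) (gram l)

def target : List ℤ := [128, 0, 0, 0, 0, 0, 0, 0, 128, 0, 0, 0, 0, 0, 0, 128, 0, 0, 0, 0, 0,
  128, 0, 0, 0, 0, 128, 0, 0, 0, 128, 0, 0, 128, 0, 128]

def chk1 (u : List ℤ) : Bool :=
  if (sqL u / 8) % 2 == 1 then (oddR u).length == 112 else true

def chk2 (u : List ℤ) : Bool :=
  if (sqL u / 8) % 2 == 0 && !(u == [0,0,0,0,0,0,0,0]) then
    (oddR u).length == 128 && gram (oddR u) == target else true

theorem rootsA_nodup : rootsA.Nodup := by decide +kernel

theorem all_chk1 : (repE ++ repO).all chk1 = true := by decide +kernel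

theorem all_chk2 : (repE ++ repO).all chk2 = true := by decide +kernel

theorem mem_allL (S : List ℤ) : ∀ (n : ℕ) (l : List ℤ),
    l ∈ allL S n ↔ l.length = n ∧ ∀ x ∈ l, x ∈ S := by
  intro n
  induction n with
  | zero =>
    intro l
    simp only [allL, List.mem_singleton, List.length_eq_zero_iff]
    constructor
    · rintro rfl; simp
    · rintro ⟨h, -⟩; exact h
  | succ n ih =>
    intro l
    simp only [allL, List.mem_flatMap, List.mem_map]
    constructor
    · rintro ⟨m, hm, s, hs, rfl⟩
      obtain ⟨h1, h2⟩ := (ih m).mp hm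
      refine ⟨by simp [h1], ?_⟩
      intro x hx
      rcases List.mem_cons.mp hx with rfl | hx
      · exact hs
      · exact h2 x hx
    · rintro ⟨h1, h2⟩
      match l, h1, h2 with
      | a :: m, h1, h2 =>
        refine ⟨m, (ih m).mpr ⟨by simpa using h1, fun x hx => h2 x (List.mem_cons_of_mem _ hx)⟩,
          a, h2 a List.mem_cons_self, rfl⟩

/-- the list of the coordinates -/
def toL (v : Fin 8 → ℤ) : List ℤ := [v 0, v 1, v 2, v 3, v 4, v 5, v 6, v 7]

theorem toL_inj : Function.Injective toL := by
  intro v w h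
  unfold toL at h
  simp only [List.cons.injEq, and_true] at h
  obtain ⟨h0, h1, h2, h3, h4, h5, h6, h7⟩ := h
  funext i
  fin_cases i <;> assumption

theorem sumL_toL (v : Fin 8 → ℤ) : sumL (toL v) = ∑ i, v i := by
  simp only [toL, sumL, Fin.sum_univ_eight]; ring

theorem sqL_toL (v : Fin 8 → ℤ) : sqL (toL v) = ∑ i, v i ^ 2 := by
  simp only [toL, sqL, Fin.sum_univ_eight]; ring

theorem dotL_toL (v w : Fin 8 → ℤ) : dotL (toL v) (toL w) = ip v w := by
  simp only [toL, dotL, ip, Fin.sum_univ_eight]; ring

theorem toL_surj {l : List ℤ} (h : l.length = 8) : ∃ v, toL v = l := by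
  match l, h with
  | [a, b, c, d, e, f, g, i], _ => exact ⟨![a, b, c, d, e, f, g, i], rfl⟩

theorem mem_rootsA {r : Fin 8 → ℤ} : toL r ∈ rootsA ↔ r ∈ roots := by
  rw [mem_roots]
  unfold rootsA
  rw [List.mem_filter, List.mem_append, mem_allL, mem_allL, sqL_toL, sumL_toL]
  constructor
  · rintro ⟨h1, h2⟩
    have h2' : (∑ i, r i ^ 2) = 8 ∧ (∑ i, r i) % 4 = 0 := by simpa using h2
    have hm : ∀ i, r i ∈ toL r := by
      intro i; unfold toL; fin_cases i <;> simp
    refine ⟨⟨?_, h2'.2⟩, h2'.1⟩
    rcases h1 with h1 | h1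
    · intro i j
      have a1 := h1.2 _ (hm i)
      have a2 := h1.2 _ (hm j)
      simp only [List.mem_cons, List.not_mem_nil, or_false] at a1 a2
      omega
    · intro i j
      have a1 := h1.2 _ (hm i)
      have a2 := h1.2 _ (hm j)
      simp only [List.mem_cons, List.not_mem_nil, or_false] at a1 a2
      omega
  · rintro ⟨⟨hpar, hsum⟩, hsq⟩
    have hb : ∀ i, r i = -2 ∨ r i = -1 ∨ r i = 0 ∨ r i = 1 ∨ r i = 2 := by
      intro i
      have h1 : r i ^ 2 ≤ ∑ i, r i ^ 2 :=
        Finset.single_le_sum (f := fun i => r i ^ 2) (fun i _ => sq_nonneg _) (Finset.mem_univ i)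
      rw [hsq] at h1
      have h2 : -2 ≤ r i := by nlinarith
      have h3 : r i ≤ 2 := by nlinarith
      omega
    refine ⟨?_, by simp [hsq, hsum]⟩
    have hall : ∀ x ∈ toL r, ∃ i, r i = x := by
      intro x hx
      unfold toL at hx
      simp only [List.mem_cons, List.not_mem_nil, or_false] at hx
      rcases hx with h | h | h | h | h | h | h | h <;> exact ⟨_, h.symm⟩
    rcases Int.emod_two_eq_zero_or_one (r 0) with h0 | h0
    · left
      refine ⟨rfl, fun x hx => ?_⟩
      obtain ⟨i, rfl⟩ := hall x hx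
      have := hb i
      have := hpar i 0
      simp only [List.mem_cons, List.not_mem_nil, or_false]
      omega
    · right
      refine ⟨rfl, fun x hx => ?_⟩
      obtain ⟨i, rfl⟩ := hall x hx
      have := hb i
      have := hpar i 0
      simp only [List.mem_cons, List.not_mem_nil, or_false]
      omega

theorem length_of_mem_rootsA {l : List ℤ} (h : l ∈ rootsA) : l.length = 8 := by
  unfold rootsA at h
  rw [List.mem_filter, List.mem_append, mem_allL, mem_allL] at h
  rcases h.1 with h | h <;> exact h.1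

theorem image_filter (P : List ℤ → Bool) :
    (roots.filter (fun r => P (toL r) = true)).image toL = (rootsA.filter P).toFinset := by
  ext l
  simp only [Finset.mem_image, Finset.mem_filter, List.mem_toFinset, List.mem_filter]
  constructor
  · rintro ⟨r, ⟨hr, hP⟩, rfl⟩
    exact ⟨mem_rootsA.mpr hr, hP⟩
  · rintro ⟨hl, hP⟩
    obtain ⟨r, rfl⟩ := toL_surj (length_of_mem_rootsA hl)
    exact ⟨r, ⟨mem_rootsA.mp hl, hP⟩, rfl⟩

theorem card_filter_roots (P : List ℤ → Bool) :
    (roots.filter (fun r => P (toL r) = true)).card = (rootsA.filter P).length := by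
  rw [← Finset.card_image_of_injective _ toL_inj, image_filter,
    List.toFinset_card_of_nodup (rootsA_nodup.filter _)]

theorem sum_filter_roots (P : List ℤ → Bool) (f : List ℤ → ℤ) :
    ∑ r ∈ roots.filter (fun r => P (toL r) = true), f (toL r) =
      ((rootsA.filter P).map f).sum := by
  rw [← List.sum_toFinset f (rootsA_nodup.filter _), ← image_filter,
    Finset.sum_image (fun a _ b _ h => toL_inj h)]

/-! ## The quadratic form -/

/-- coefficients of the square of a linear form -/
def cvL : List ℤ → List ℤ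
  | [] => []
  | a :: l => (a * a) :: (smulL (2 * a) l ++ cvL l)

theorem sq_dot (v r : Fin 8 → ℤ) :
    dotL (toL v) (toL r) ^ 2 = dotL (cvL (toL v)) (triL (toL r)) := by
  simp only [toL, dotL, cvL, triL, smulL, List.cons_append, List.nil_append]
  ring

theorem dotL_addL : ∀ (c a b : List ℤ), a.length = b.length →
    dotL c (addL a b) = dotL c a + dotL c b
  | [], a, b, _ => by simp [dotL]
  | x :: c, [], [], _ => by simp [dotL, addL]
  | x :: c, y :: a, z :: b, h => by
    have := dotL_addL c a b (by simpa using h)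
    simp only [dotL, addL, this]; ring

theorem addL_length : ∀ (a b : List ℤ), a.length = b.length → (addL a b).length = a.length
  | [], [], _ => rfl
  | x :: a, y :: b, h => by
    have := addL_length a b (by simpa using h)
    simp only [addL, List.length_cons, this]

theorem triL_length (r : Fin 8 → ℤ) : (triL (toL r)).length = 36 := rfl

theorem gram_spec (c : List ℤ) : ∀ L : List (List ℤ), (∀ l ∈ L, l.length = 8) →
    (gram L).length = 36 ∧ dotL c (gram L) = (L.map fun l => dotL c (triL l)).sum
  | [], _ => by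
    refine ⟨rfl, ?_⟩
    have : ∀ (n : ℕ) (c : List ℤ), dotL c (List.replicate n 0) = 0 := by
      intro n
      induction n with
      | zero => intro c; cases c <;> rfl
      | succ n ih =>
        intro c
        cases c with
        | nil => rfl
        | cons a c => simp only [List.replicate_succ, dotL, ih, mul_zero, add_zero]
    exact this 36 c
  | l :: L, h => by
    obtain ⟨h1, h2⟩ := gram_spec c L (fun m hm => h m (List.mem_cons_of_mem _ hm))
    obtain ⟨r, rfl⟩ := toL_surj (h l List.mem_cons_self)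
    refine ⟨?_, ?_⟩
    · show (addL (triL (toL r)) (gram L)).length = 36
      rw [addL_length _ _ (by rw [triL_length, h1]), triL_length]
    · show dotL c (addL (triL (toL r)) (gram L)) = _
      rw [dotL_addL _ _ _ (by rw [triL_length, h1]), h2]
      simp

theorem dot_target (v : Fin 8 → ℤ) : dotL (cvL (toL v)) target = 128 * ∑ i, v i ^ 2 := by
  simp only [toL, dotL, cvL, smulL, target, List.cons_append, List.nil_append,
    Fin.sum_univ_eight]
  ring

/-! ## Representatives -/

theorem exists_rep {v : Fin 8 → ℤ} (hv : InE8 v) :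
    ∃ u w : Fin 8 → ℤ, toL u ∈ repE ++ repO ∧ InE8 u ∧ InE8 w ∧ ∀ i, v i = u i + 2 * w i := by
  -- it is enough to find the representative up to `4 e₀`
  have key : ∀ u : Fin 8 → ℤ, InE8 u → (∀ i, (v i - u i) % 4 = (v 7 - u 7) % 4) →
      (v 7 - u 7) % 2 = 0 →
      (toL u ∈ repE ++ repO ∧ addL (toL u) [4, 0, 0, 0, 0, 0, 0, 0] ∈ repE ++ repO) →
      ∃ u w : Fin 8 → ℤ, toL u ∈ repE ++ repO ∧ InE8 u ∧ InE8 w ∧ ∀ i, v i = u i + 2 * w i := by
    intro u hu h1 h2 hm
    set w : Fin 8 → ℤ := fun i => (v i - u i) / 2 with hw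
    have hw2 : ∀ i, v i = u i + 2 * w i := by
      intro i
      have := h1 i
      simp only [hw]; omega
    have hpar : ∀ i j, w i % 2 = w j % 2 := by
      intro i j
      have a1 := h1 i
      have a2 := h1 j
      simp only [hw]; omega
    have hsum : (∑ i, w i) % 4 = 0 ∨ (∑ i, w i) % 4 = 2 := by
      have a1 : ∀ i, ∃ c, w i = w 0 + 2 * c := fun i =>
        ⟨(w i - w 0) / 2, by have := hpar i 0; omega⟩
      choose c hc using a1
      have a2 : ∑ i, w i = 8 * w 0 + 2 * ∑ i, c i := by
        rw [Finset.sum_congr rfl fun i _ => hc i, Finset.sum_add_distrib, Finset.mul_sum]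
        simp
      clear hc h1 h2 hw2 hpar
      omega
    rcases hsum with hs | hs
    · exact ⟨u, w, hm.1, hu, ⟨hpar, hs⟩, hw2⟩
    · set e : Fin 8 → ℤ := ![4, 0, 0, 0, 0, 0, 0, 0] with he
      have hesum : ∑ i, e i = 4 := by simp [he, Fin.sum_univ_eight]
      have hepar : ∀ i, e i % 4 = 0 := by intro i; fin_cases i <;> rfl
      refine ⟨fun i => u i + e i, fun i => w i - e i / 2, ?_, ?_, ?_, ?_⟩
      · have : toL (fun i => u i + e i) = addL (toL u) [4, 0, 0, 0, 0, 0, 0, 0] := rfl
        rw [this]; exact hm.2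
      · refine ⟨fun i j => ?_, ?_⟩
        · have b1 := hu.1 i j
          have b2 := hepar i
          have b3 := hepar j
          show (u i + e i) % 2 = (u j + e j) % 2
          omega
        · have b1 := hu.2
          rw [Finset.sum_add_distrib, hesum]; omega
      · refine ⟨fun i j => ?_, ?_⟩
        · have b1 := hpar i j
          have b2 := hepar i
          have b3 := hepar j
          show (w i - e i / 2) % 2 = (w j - e j / 2) % 2
          omega
        · have : ∑ i, e i / 2 = 2 := by simp [he, Fin.sum_univ_eight]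
          rw [Finset.sum_sub_distrib, this]; omega
      · intro i
        have b1 := hepar i
        have b2 := hw2 i
        show v i = u i + e i + 2 * (w i - e i / 2)
        omega
  obtain ⟨hpar, hsum⟩ := hv
  have p0 := hpar 0 7
  have p1 := hpar 1 7
  have p2 := hpar 2 7
  have p3 := hpar 3 7
  have p4 := hpar 4 7
  have p5 := hpar 5 7
  have p6 := hpar 6 7
  rw [Fin.sum_univ_eight] at hsum
  rcases Int.emod_two_eq_zero_or_one (v 7) with h7 | h7
  · set u : Fin 8 → ℤ := fun i => (v i + v 7) % 4 with hu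
    have hu7 : u 7 = 0 := by simp only [hu]; omega
    have hui : ∀ i, u i = 0 ∨ u i = 2 := by
      intro i; have := hpar i 7; simp only [hu]; omega
    have hus : (u 0 + u 1 + u 2 + u 3 + u 4 + u 5 + u 6) % 4 = 0 := by
      have a1 : ∀ i, ∃ c, u i = v i + v 7 + 4 * c := fun i =>
        ⟨-((v i + v 7) / 4), by simp only [hu]; omega⟩
      choose c hc using a1
      rw [hc 0, hc 1, hc 2, hc 3, hc 4, hc 5, hc 6]
      clear hc hui hu7
      clear_value u
      clear p0 p1 p2 p3 p4 p5 p6
      omega
    refine key u ⟨fun i j => ?_, ?_⟩ (fun i => ?_)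
      (by clear hsum hus p0 p1 p2 p3 p4 p5 p6; rw [hu7]; omega) ?_
    · have a1 := hui i
      have a2 := hui j
      clear hsum hus p0 p1 p2 p3 p4 p5 p6
      omega
    · rw [Fin.sum_univ_eight, hu7, add_zero]; exact hus
    · have := hpar i 7
      clear hsum hus p0 p1 p2 p3 p4 p5 p6
      rw [hu7]; simp only [hu]; omega
    · have hmem : [u 0, u 1, u 2, u 3, u 4, u 5, u 6] ∈
          (allL [0, 2] 7).filter (fun l => sumL l % 4 == 0) := by
        rw [List.mem_filter, mem_allL]
        refine ⟨⟨rfl, ?_⟩, ?_⟩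
        · intro x hx
          simp only [List.mem_cons, List.not_mem_nil, or_false] at hx ⊢
          rcases hx with h | h | h | h | h | h | h <;> rw [h] <;> exact hui _
        · simp only [sumL, beq_iff_eq]
          refine Eq.trans (congrArg (fun t : ℤ => t % 4) ?_) hus
          ring
      have htl : toL u = [u 0, u 1, u 2, u 3, u 4, u 5, u 6] ++ [0] := by
        unfold toL; rw [hu7]; rfl
      rw [htl]
      constructor
      · refine List.mem_append_left _ ?_
        unfold repE
        rw [List.mem_flatMap]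
        exact ⟨_, hmem, List.mem_cons_self⟩
      · refine List.mem_append_left _ ?_
        unfold repE
        rw [List.mem_flatMap]
        exact ⟨_, hmem, List.mem_cons_of_mem _ List.mem_cons_self⟩
  · set u : Fin 8 → ℤ := fun i => if v i % 4 = v 7 % 4 then 1 else -1 with hu
    have hu7 : u 7 = 1 := by simp only [hu]; simp
    have hui : ∀ i, (v i % 4 = v 7 % 4 ∧ u i = 1) ∨ (v i % 4 ≠ v 7 % 4 ∧ u i = -1) := by
      intro i
      by_cases h : v i % 4 = v 7 % 4
      · left; exact ⟨h, by simp only [hu]; rw [if_pos h]⟩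
      · right; exact ⟨h, by simp only [hu]; rw [if_neg h]⟩
    have hus : (u 0 + u 1 + u 2 + u 3 + u 4 + u 5 + u 6 + 1) % 4 = 0 := by
      -- `u i ≡ ± v i` with a common sign
      clear p0 p1 p2 p3 p4 p5 p6
      rcases (by clear hsum; omega : v 7 % 4 = 1 ∨ v 7 % 4 = 3) with h | h
      · have a1 : ∀ i, ∃ c, u i = v i + 4 * c := fun i =>
          ⟨(u i - v i) / 4, by have b1 := hui i; have b2 := hpar i 7; clear hsum; omega⟩
        choose c hc using a1
        rw [hc 0, hc 1, hc 2, hc 3, hc 4, hc 5, hc 6]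
        clear hc hui hu7
        clear_value u
        omega
      · have a1 : ∀ i, ∃ c, u i = - v i + 4 * c := fun i =>
          ⟨(u i + v i) / 4, by have b1 := hui i; have b2 := hpar i 7; clear hsum; omega⟩
        choose c hc using a1
        rw [hc 0, hc 1, hc 2, hc 3, hc 4, hc 5, hc 6]
        clear hc hui hu7
        clear_value u
        omega
    refine key u ⟨fun i j => ?_, ?_⟩ (fun i => ?_)
      (by clear hsum hus p0 p1 p2 p3 p4 p5 p6; rw [hu7]; omega) ?_
    · have a1 := hui i
      have a2 := hui j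
      clear hsum hus p0 p1 p2 p3 p4 p5 p6
      omega
    · rw [Fin.sum_univ_eight, hu7]; exact hus
    · have := hpar i 7
      have a1 := hui i
      clear hsum hus p0 p1 p2 p3 p4 p5 p6
      rw [hu7]; omega
    · have hmem : [u 0, u 1, u 2, u 3, u 4, u 5, u 6] ∈
          (allL [-1, 1] 7).filter (fun l => (sumL l + 1) % 4 == 0) := by
        rw [List.mem_filter, mem_allL]
        refine ⟨⟨rfl, ?_⟩, ?_⟩
        · intro x hx
          simp only [List.mem_cons, List.not_mem_nil, or_false] at hx ⊢
          rcases hx with h | h | h | h | h | h | h <;> rw [h] <;>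
            exact (hui _).elim (fun h => Or.inr h.2) (fun h => Or.inl h.2)
        · simp only [sumL, beq_iff_eq]
          refine Eq.trans (congrArg (fun t : ℤ => t % 4) ?_) hus
          ring
      have htl : toL u = [u 0, u 1, u 2, u 3, u 4, u 5, u 6] ++ [1] := by
        unfold toL; rw [hu7]; rfl
      rw [htl]
      constructor
      · refine List.mem_append_right _ ?_
        unfold repO
        rw [List.mem_flatMap]
        exact ⟨_, hmem, List.mem_cons_self⟩
      · refine List.mem_append_right _ ?_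
        unfold repO
        rw [List.mem_flatMap]
        exact ⟨_, hmem, List.mem_cons_of_mem _ List.mem_cons_self⟩

theorem ip_add (u w r : Fin 8 → ℤ) {v : Fin 8 → ℤ} (h : ∀ i, v i = u i + 2 * w i) :
    ip v r = ip u r + 2 * ip w r := by
  unfold ip
  rw [Finset.mul_sum, ← Finset.sum_add_distrib]
  exact Finset.sum_congr rfl fun i _ => by rw [h]; ring

theorem ok_class : S_class := by
  have hb := ok_basic
  have main : ∀ v, InE8 v → ∃ u : Fin 8 → ℤ, toL u ∈ repE ++ repO ∧
      (sqL (toL u) / 8) % 2 = (∑ i, v i ^ 2) / 8 % 2 ∧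
      (roots.filter fun r => ip v r / 4 % 2 = 1) =
        (roots.filter fun r => (dotL (toL u) (toL r) / 4 % 2 == 1) = true) ∧
      (toL u = [0,0,0,0,0,0,0,0] → ∃ w, InE8 w ∧ v = fun i => 2 * w i) := by
    intro v hv
    obtain ⟨u, w, hm, hu, hw, hvu⟩ := exists_rep hv
    refine ⟨u, hm, ?_, ?_, ?_⟩
    · rw [sqL_toL]
      obtain ⟨k, hk⟩ := hb.1 u w hu hw
      obtain ⟨m, hm⟩ := hb.2 w hw
      obtain ⟨n, hn⟩ := hb.2 u hu
      have : ∑ i, v i ^ 2 = ∑ i, u i ^ 2 + 4 * ip u w + 4 * ∑ i, w i ^ 2 := by
        unfold ip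
        rw [Finset.mul_sum, Finset.mul_sum, ← Finset.sum_add_distrib, ← Finset.sum_add_distrib]
        exact Finset.sum_congr rfl fun i _ => by rw [hvu]; ring
      rw [this, hk, hm, hn]
      omega
    · refine Finset.filter_congr fun r hr => ?_
      rw [dotL_toL, ip_add u w r hvu, beq_iff_eq]
      obtain ⟨k, hk⟩ := hb.1 w r hw (mem_roots.mp hr).1
      obtain ⟨m, hm⟩ := hb.1 u r hu (mem_roots.mp hr).1
      rw [hk, hm]
      omega
    · intro h0
      refine ⟨w, hw, ?_⟩
      have : u = fun _ => 0 := toL_inj h0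
      funext i
      rw [hvu i, this]; ring
  refine ⟨fun v hv h1 => ?_, fun v hv h0 hn => ?_⟩
  · obtain ⟨u, hm, hq, hR, -⟩ := main v hv
    have hc := List.all_eq_true.mp all_chk1 _ hm
    unfold chk1 at hc
    rw [if_pos (by rw [beq_iff_eq, hq, h1])] at hc
    rw [hR, card_filter_roots (fun l => dotL (toL u) l / 4 % 2 == 1)]
    exact beq_iff_eq.mp hc
  · obtain ⟨u, hm, hq, hR, hz⟩ := main v hv
    have hc := List.all_eq_true.mp all_chk2 _ hm
    unfold chk2 at hc
    have hne : toL u ≠ [0,0,0,0,0,0,0,0] := fun h => hn (hz h)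
    rw [if_pos (by simp only [Bool.and_eq_true, beq_iff_eq, Bool.not_eq_true', hq, h0, true_and]
                   exact beq_eq_false_iff_ne.mpr hne)] at hc
    rw [Bool.and_eq_true, beq_iff_eq, beq_iff_eq] at hc
    refine ⟨?_, ?_⟩
    · rw [hR, card_filter_roots (fun l => dotL (toL u) l / 4 % 2 == 1)]
      exact hc.1
    · rw [hR]
      have h3 : ∀ r ∈ roots.filter (fun r => (dotL (toL u) (toL r) / 4 % 2 == 1) = true),
          ip v r ^ 2 = (fun l => dotL (cvL (toL v)) (triL l)) (toL r) := by
        intro r _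
        rw [← dotL_toL, sq_dot]
      rw [Finset.sum_congr rfl h3,
        sum_filter_roots (fun l => dotL (toL u) l / 4 % 2 == 1)
          (fun l => dotL (cvL (toL v)) (triL l))]
      have h4 := (gram_spec (cvL (toL v)) (oddR (toL u))
        (fun l hl => length_of_mem_rootsA (List.mem_filter.mp hl).1)).2
      rw [hc.2, dot_target] at h4
      exact h4.symm

end Pool.Agent.H159.EW
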