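import Pool.Agent.H159.EW.J_Basic

set_option autoImplicit false

namespace Pool.Agent.H159.EW

/-- bilinear form -/
def bil (x y : Fin 8 → ℚ) : ℚ := ∑ i, x i * y i

theorem nsq_add (x y : Fin 8 → ℚ) : nsq (x + y) = nsq x + 2 * bil x y + nsq y := by
  unfold nsq bil
  rw [Finset.mul_sum, ← Finset.sum_add_distrib, ← Finset.sum_add_distrib]
  exact Finset.sum_congr rfl fun i _ => by simp only [Pi.add_apply]; ring

theorem bil_map {g : (Fin 8 → ℚ) ≃ₗ[ℚ] (Fin 8 → ℚ)} (hg : IsAut g) (x y : Fin 8 → ℚ) :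
    bil (g x) (g y) = bil x y := by
  have h1 := nsq_add x y
  have h2 := nsq_add (g x) (g y)
  rw [← map_add, hg.1, hg.1, hg.1] at h2
  linarith

theorem IsAut.symm {g : (Fin 8 → ℚ) ≃ₗ[ℚ] (Fin 8 → ℚ)} (hg : IsAut g) : IsAut g.symm := by
  refine ⟨fun x => ?_, fun x => ?_⟩
  · have := hg.1 (g.symm x)
    rw [g.apply_symm_apply] at this
    exact this.symm
  · have := hg.2 (g.symm x)
    rw [g.apply_symm_apply] at this
    exact this.symm

/-- the rational vector `r / 2` -/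
def hv (r : Fin 8 → ℤ) : Fin 8 → ℚ := fun i => (r i : ℚ) / 2

theorem hv_inj : Function.Injective hv := by
  intro r s h
  funext i
  have := congrFun h i
  unfold hv at this
  have h2 : (r i : ℚ) = s i := by linarith
  exact_mod_cast h2

theorem nsq_hv (r : Fin 8 → ℤ) : nsq (hv r) = ((∑ i, r i ^ 2 : ℤ) : ℚ) / 4 := by
  unfold nsq hv
  push_cast
  rw [Finset.sum_div]
  exact Finset.sum_congr rfl fun i _ => by ring

theorem mem_roots {r : Fin 8 → ℤ} : r ∈ roots ↔ InE8 r ∧ ∑ i, r i ^ 2 = 8 := by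
  unfold roots
  rw [Finset.mem_filter, Fintype.mem_piFinset]
  refine ⟨fun h => h.2, fun h => ⟨fun i => ?_, h⟩⟩
  rw [Finset.mem_Icc]
  have h1 : r i ^ 2 ≤ ∑ i, r i ^ 2 :=
    Finset.single_le_sum (f := fun i => r i ^ 2) (fun i _ => sq_nonneg _) (Finset.mem_univ i)
  rw [h.2] at h1
  constructor <;> nlinarith

theorem image_roots {g : (Fin 8 → ℚ) ≃ₗ[ℚ] (Fin 8 → ℚ)} (hg : IsAut g) {r : Fin 8 → ℤ}
    (hr : r ∈ roots) : ∃ s ∈ roots, hv s = g (hv r) := by
  rw [mem_roots] at hr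
  have h1 : hv r ∈ E8 := ⟨r, hr.1, fun i => rfl⟩
  have h2 : g (hv r) ∈ E8 := (hg.2 _).mpr h1
  obtain ⟨s, hs, hs'⟩ := h2
  have h3 : hv s = g (hv r) := by funext i; rw [hs' i]; rfl
  refine ⟨s, ?_, h3⟩
  rw [mem_roots]
  refine ⟨hs, ?_⟩
  have h4 := hg.1 (hv r)
  rw [← h3, nsq_hv, nsq_hv, hr.2] at h4
  have h5 : ((∑ i, s i ^ 2 : ℤ) : ℚ) = ((8 : ℤ) : ℚ) := by push_cast at h4 ⊢; linarith
  exact_mod_cast h5

theorem G_eq' (x : Fin 8 → ℚ) : G x = ∑ r ∈ roots, bil x (hv r) ^ 8 - 30 * nsq x ^ 4 := by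
  unfold G
  refine congrArg₂ (fun a b : ℚ => a - b) (Finset.sum_congr rfl fun r _ => ?_) rfl
  refine congrArg (fun a : ℚ => a ^ 8) ?_
  unfold bil hv
  rw [Finset.sum_div]
  exact Finset.sum_congr rfl fun i _ => by ring

theorem ok_ginv : S_ginv := by
  refine ⟨fun c x => ?_, fun g hg x => ?_⟩
  · rw [G_eq', G_eq', mul_sub, Finset.mul_sum]
    refine congrArg₂ (fun a b : ℚ => a - b) ?_ ?_
    · refine Finset.sum_congr rfl fun r _ => ?_
      have : bil (fun i => c * x i) (hv r) = c * bil x (hv r) := by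
        unfold bil
        rw [Finset.mul_sum]
        exact Finset.sum_congr rfl fun i _ => by ring
      rw [this]; ring
    · have : nsq (fun i => c * x i) = c ^ 2 * nsq x := by
        unfold nsq
        rw [Finset.mul_sum]
        exact Finset.sum_congr rfl fun i _ => by ring
      rw [this]; ring
  · rw [G_eq', G_eq', hg.1]
    refine congrArg₂ (fun a b : ℚ => a - b) ?_ rfl
    choose! f hf hf' using fun r (hr : r ∈ roots) => image_roots hg.symm hr
    refine Finset.sum_bij (fun r _ => f r) (fun r hr => hf r hr) ?_ ?_ ?_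
    · intro r hr s hs hrs
      have h1 := hf' r hr
      have h2 := hf' s hs
      rw [hrs, h2] at h1
      exact (hv_inj (g.symm.injective h1)).symm
    · intro s hs
      obtain ⟨r, hr, hr'⟩ := image_roots hg hs
      refine ⟨r, hr, hv_inj ?_⟩
      rw [hf' r hr, hr', g.symm_apply_apply]
    · intro r hr
      refine congrArg (fun a : ℚ => a ^ 8) ?_
      rw [hf' r hr]
      have := bil_map hg x (g.symm (hv r))
      rw [g.apply_symm_apply] at this
      exact this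

theorem ok_fin : S_fin := by
  intro x
  -- a positive integer `D` with `D x ∈ E8`
  obtain ⟨D, hD, w, hw⟩ : ∃ D : ℕ, 0 < D ∧ ∃ w : Fin 8 → ℤ, ∀ i, (D : ℚ) * x i = w i := by
    refine ⟨∏ i, (x i).den, Finset.prod_pos fun i _ => (x i).pos, ?_⟩
    have : ∀ i, ∃ w : ℤ, ((∏ i, (x i).den : ℕ) : ℚ) * x i = w := by
      intro i
      obtain ⟨c, hc⟩ := Finset.dvd_prod_of_mem (fun i => (x i).den) (Finset.mem_univ i)
      refine ⟨c * (x i).num, ?_⟩
      rw [hc]
      push_cast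
      have := Rat.mul_den_eq_num (x i)
      linear_combination (c : ℚ) * this
    choose w hw using this
    exact ⟨w, hw⟩
  set c : ℚ := 4 * D with hcdef
  have hc0 : c ≠ 0 := by
    have : (D : ℚ) ≠ 0 := by exact_mod_cast hD.ne'
    simp only [hcdef]; positivity
  set y : Fin 8 → ℚ := c • x with hy
  have hyE : y ∈ E8 := by
    refine ⟨fun i => 8 * w i, ⟨fun i j => by show (8 * w i) % 2 = (8 * w j) % 2; omega, ?_⟩,
      fun i => ?_⟩
    · have : ∑ i, 8 * w i = 8 * ∑ i, w i := by rw [Finset.mul_sum]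
      rw [this]; omega
    · simp only [hy, Pi.smul_apply, smul_eq_mul, hcdef]
      push_cast
      rw [mul_assoc, hw i]; ring
  -- vectors of E8 of given norm are finite in number
  set B : ℤ := ⌈4 * nsq y⌉ with hB
  have hfin : (Set.range fun s : (Fin 8 → Set.Icc (-B) B) => c⁻¹ • hv (fun i => (s i : ℤ))).Finite := by
    exact Set.finite_range _
  refine hfin.subset ?_
  rintro z ⟨g, hg, rfl⟩
  have h1 : g y ∈ E8 := (hg.2 y).mpr hyE
  obtain ⟨s, hs, hs'⟩ := h1
  have h2 : hv s = g y := by funext i; rw [hs' i]; rfl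
  have h3 : nsq (hv s) = nsq y := by rw [h2, hg.1]
  rw [nsq_hv] at h3
  have h4 : ((∑ i, s i ^ 2 : ℤ) : ℚ) ≤ (B : ℚ) := by
    have := Int.le_ceil (4 * nsq y)
    rw [← hB] at this
    linarith
  have h5 : ∑ i, s i ^ 2 ≤ B := by exact_mod_cast h4
  have h6 : ∀ i, s i ∈ Set.Icc (-B) B := by
    intro i
    have h7 : s i ^ 2 ≤ ∑ i, s i ^ 2 :=
      Finset.single_le_sum (f := fun i => s i ^ 2) (fun i _ => sq_nonneg _) (Finset.mem_univ i)
    constructor <;> nlinarith [sq_nonneg (s i), sq_nonneg (s i - 1), sq_nonneg (s i + 1)]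
  refine ⟨fun i => ⟨s i, h6 i⟩, ?_⟩
  show c⁻¹ • hv s = g x
  rw [h2, hy, map_smul, smul_smul, inv_mul_cancel₀ hc0, one_smul]

end Pool.Agent.H159.EW
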