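import Pool.Agent.H159.EW.J_Basic

set_option autoImplicit false

namespace Pool.Agent.H159.EW

theorem mem_roots_inE8 {r : Fin 8 → ℤ} (hr : r ∈ roots) : InE8 r := by
  unfold roots at hr
  exact (Finset.mem_filter.mp hr).2.1

theorem G_eq (hb : S_basic) (v : Fin 8 → ℤ) (hv : InE8 v) :
    G (fun i => (v i : ℚ) / 2) =
      ((∑ r ∈ roots, (ip v r / 4) ^ 8 - 480 * ((∑ i, v i ^ 2) / 8) ^ 4 : ℤ) : ℚ) := by
  unfold G
  have h1 : ∀ r ∈ roots, (((∑ i, (v i : ℚ) / 2 * (r i : ℚ)) / 2) ^ 8 : ℚ) =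
      (((ip v r / 4) ^ 8 : ℤ) : ℚ) := by
    intro r hr
    have h4 := hb.1 v r hv (mem_roots_inE8 hr)
    obtain ⟨k, hk⟩ := h4
    have h5 : ip v r / 4 = k := by omega
    have h6 : (∑ i, (v i : ℚ) / 2 * (r i : ℚ)) / 2 = (ip v r : ℚ) / 4 := by
      unfold ip
      push_cast
      rw [Finset.sum_div, Finset.sum_div]
      exact Finset.sum_congr rfl fun i _ => by ring
    rw [h6, h5, hk]
    push_cast
    ring
  have h2 : nsq (fun i => (v i : ℚ) / 2) = 2 * (((∑ i, v i ^ 2) / 8 : ℤ) : ℚ) := by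
    obtain ⟨k, hk⟩ := hb.2 v hv
    have h5 : (∑ i, v i ^ 2) / 8 = k := by omega
    rw [h5]
    unfold nsq
    have h6 : ∑ i, ((v i : ℚ) / 2) ^ 2 = ((∑ i, v i ^ 2 : ℤ) : ℚ) / 4 := by
      push_cast
      rw [Finset.sum_div]
      exact Finset.sum_congr rfl fun i _ => by ring
    rw [h6, hk]
    push_cast
    ring
  rw [Finset.sum_congr rfl h1, h2]
  push_cast
  ring

theorem ok_gval (hc : S_class) (hb : S_basic) : S_gval := by
  intro v hv hn
  set N : ℤ := (∑ i, v i ^ 2) / 8 with hN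
  have hG := G_eq hb v hv
  rw [← hN] at hG
  set n : (Fin 8 → ℤ) → ℤ := fun r => ip v r / 4 with hndef
  have hsplit : ∑ r ∈ roots, (n r) ^ 8 =
      ∑ r ∈ roots.filter (fun r => n r % 2 = 1), (n r) ^ 8 +
      ∑ r ∈ roots.filter (fun r => ¬ n r % 2 = 1), (n r) ^ 8 :=
    (Finset.sum_filter_add_sum_filter_not _ _ _).symm
  have heven : (256 : ℤ) ∣ ∑ r ∈ roots.filter (fun r => ¬ n r % 2 = 1), (n r) ^ 8 := by
    refine Finset.dvd_sum fun r hr => ?_
    have h1 := (Finset.mem_filter.mp hr).2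
    have h2 : (2 : ℤ) ∣ n r := by omega
    obtain ⟨k, hk⟩ := h2
    rw [hk]
    exact ⟨k ^ 8, by ring⟩
  obtain ⟨E, hE⟩ := heven
  have hodd : ∀ r ∈ roots.filter (fun r => n r % 2 = 1),
      ∃ t u : ℤ, n r ^ 2 = 1 + 8 * t ∧ n r ^ 8 = 1 + 32 * t + 128 * t ^ 2 + 256 * u := by
    intro r hr
    have h1 := (Finset.mem_filter.mp hr).2
    have h2 : (8 : ℤ) ∣ n r ^ 2 - 1 := by
      obtain ⟨k, hk⟩ : ∃ k, n r = 2 * k + 1 := ⟨n r / 2, by omega⟩
      have h3 : (2 : ℤ) ∣ k ^ 2 + k := by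
        have : k ^ 2 + k = (k + 1) * k := by ring
        rw [this]
        rcases Int.even_or_odd k with h | h
        · exact (even_iff_two_dvd.mp h).mul_left _
        · exact (even_iff_two_dvd.mp (h.add_odd odd_one)).mul_right _
      obtain ⟨m, hm⟩ := h3
      refine ⟨m, ?_⟩
      rw [hk]
      linear_combination 4 * hm
    obtain ⟨t, ht⟩ := h2
    have ht' : n r ^ 2 = 1 + 8 * t := by linarith
    refine ⟨t, t ^ 2 + 8 * t ^ 3 + 16 * t ^ 4, ht', ?_⟩
    have : n r ^ 8 = (n r ^ 2) ^ 4 := by ring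
    rw [this, ht']
    ring
  refine ⟨fun h1 => ?_, fun h0 => ?_⟩
  · have hcard := hc.1 v hv h1
    have hs : ∃ s : ℤ, ∑ r ∈ roots.filter (fun r => n r % 2 = 1), (n r) ^ 8 = 112 + 32 * s := by
      have hd : (32 : ℤ) ∣ ∑ r ∈ roots.filter (fun r => n r % 2 = 1), ((n r) ^ 8 - 1) := by
        refine Finset.dvd_sum fun r hr => ?_
        obtain ⟨t, u, -, hu⟩ := hodd r hr
        exact ⟨t + 4 * t ^ 2 + 8 * u, by rw [hu]; ring⟩
      obtain ⟨s, hs⟩ := hd
      rw [Finset.sum_sub_distrib, Finset.sum_const, hcard] at hs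
      refine ⟨s, ?_⟩
      simp only [nsmul_eq_mul, mul_one] at hs
      push_cast at hs
      linarith
    obtain ⟨s, hs⟩ := hs
    refine ⟨s + 8 * E - 15 * N ^ 4 + 3, ?_⟩
    rw [hG]
    have : ∑ r ∈ roots, (ip v r / 4) ^ 8 = ∑ r ∈ roots, (n r) ^ 8 := rfl
    rw [this, hsplit, hs, hE]
    push_cast
    ring
  · obtain ⟨hcard, hsec⟩ := hc.2 v hv h0 hn
    have hcard' : (roots.filter (fun r => n r % 2 = 1)).card = 128 := hcard
    obtain ⟨k, hk⟩ : ∃ k, N = 2 * k := ⟨N / 2, by omega⟩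
    -- sum of squares
    have hsq : ∑ r ∈ roots.filter (fun r => n r % 2 = 1), (n r) ^ 2 = 64 * N := by
      have h8 : ∑ i, v i ^ 2 = 8 * N := by
        obtain ⟨k, hk⟩ := hb.2 v hv
        omega
      have h9 : ∑ r ∈ roots.filter (fun r => n r % 2 = 1), ip v r ^ 2 =
          16 * ∑ r ∈ roots.filter (fun r => n r % 2 = 1), (n r) ^ 2 := by
        rw [Finset.mul_sum]
        refine Finset.sum_congr rfl fun r hr => ?_
        obtain ⟨m, hm⟩ := hb.1 v r hv (mem_roots_inE8 (Finset.mem_filter.mp hr).1)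
        have : n r = m := by simp only [hndef]; omega
        rw [this, hm]; ring
      have h10 : ∑ r ∈ roots.filter (fun r => n r % 2 = 1), ip v r ^ 2 = 128 * ∑ i, v i ^ 2 := hsec
      rw [h9, h8] at h10
      linarith
    choose! t u ht hu using hodd
    have hT : ∑ r ∈ roots.filter (fun r => n r % 2 = 1), t r = 16 * k - 16 := by
      have h11 : ∑ r ∈ roots.filter (fun r => n r % 2 = 1), (n r) ^ 2 =
          128 + 8 * ∑ r ∈ roots.filter (fun r => n r % 2 = 1), t r := by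
        rw [Finset.sum_congr rfl ht, Finset.sum_add_distrib, Finset.sum_const, hcard',
          Finset.mul_sum]
        simp
      rw [hsq, hk] at h11
      linarith
    have hT2 : ∃ w : ℤ, ∑ r ∈ roots.filter (fun r => n r % 2 = 1), t r ^ 2 = 2 * w := by
      have hd : (2 : ℤ) ∣ ∑ r ∈ roots.filter (fun r => n r % 2 = 1), (t r ^ 2 - t r) := by
        refine Finset.dvd_sum fun r _ => ?_
        have : t r ^ 2 - t r = (t r - 1) * t r := by ring
        rw [this]
        rcases Int.even_or_odd (t r) with h | h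
        · exact (even_iff_two_dvd.mp h).mul_left _
        · exact (even_iff_two_dvd.mp (h.sub_odd odd_one)).mul_right _
      obtain ⟨w, hw⟩ := hd
      rw [Finset.sum_sub_distrib, hT] at hw
      exact ⟨w + 8 * k - 8, by linarith⟩
    obtain ⟨w, hw⟩ := hT2
    have hfin : ∑ r ∈ roots.filter (fun r => n r % 2 = 1), (n r) ^ 8 =
        128 + 32 * (16 * k - 16) + 128 * (2 * w) +
          256 * ∑ r ∈ roots.filter (fun r => n r % 2 = 1), u r := by
      rw [Finset.sum_congr rfl hu, Finset.sum_add_distrib, Finset.sum_add_distrib,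
        Finset.sum_add_distrib, Finset.sum_const, hcard', ← Finset.mul_sum, ← Finset.mul_sum,
        ← Finset.mul_sum, hT, hw]
      simp
    refine ⟨2 * k - 2 + w + ∑ r ∈ roots.filter (fun r => n r % 2 = 1), u r + E - 30 * k ^ 4, ?_⟩
    rw [hG]
    have : ∑ r ∈ roots, (ip v r / 4) ^ 8 = ∑ r ∈ roots, (n r) ^ 8 := rfl
    rw [this, hsplit, hfin, hE, hk]
    push_cast
    ring

end Pool.Agent.H159.EW
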