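import Pool.Agent.H159.EW.J_Div
import Pool.Agent.H159.EW.J_Class
import Pool.Agent.H159.EW.J_GInv
import Pool.Agent.H159.EW.J_GVal
import Pool.Agent.Q65.EWm.Mom

/-!
# Orbits of `W(E₈)` and spherical 8-designs: the invariant `G` on sets of vectors
-/

set_option autoImplicit false

namespace Pool.Agent.H159.EW.Fin8

open Pool.Agent.H159.EW MeasureTheory
open scoped BigOperators
open Pool.Agent.Q65.EWm (ok_mom)

/-! ## A design has vanishing `G`-sum -/

theorem gval : S_gval := ok_gval ok_class ok_basic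

theorem roots_card : roots.card = 240 := by
  have h := card_filter_roots fun _ => true
  simp only [Finset.filter_true] at h
  rw [h]
  have h2 : (rootsA.filter fun _ => true).length = 240 := by decide +kernel
  exact h2

theorem root_sq {r : Fin 8 → ℤ} (hr : r ∈ roots) : ∑ i, ((r i : ℝ) / 2) ^ 2 = 2 := by
  unfold roots at hr
  rw [Finset.mem_filter] at hr
  have h := hr.2.2
  have h2 : ∑ i, (r i : ℝ) ^ 2 = 8 := by exact_mod_cast h
  have h3 : ∑ i, ((r i : ℝ) / 2) ^ 2 = (∑ i, (r i : ℝ) ^ 2) / 4 := by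
    rw [Finset.sum_div]
    refine Finset.sum_congr rfl fun i _ => ?_
    ring
  rw [h3, h2]
  norm_num

theorem vol_ne : ((volume : Measure (EuclideanSpace ℝ (Fin 8))).toSphere Set.univ).toReal ≠ 0 := by
  rw [Measure.toSphere_apply_univ]
  rw [ENNReal.toReal_mul]
  refine mul_ne_zero (by simp) ?_
  rw [ENNReal.toReal_ne_zero]
  exact ⟨(Metric.measure_ball_pos _ _ one_pos).ne', measure_ball_lt_top.ne⟩

/-- the polynomial `(∑ y_i X_i)^8` -/
noncomputable def pol (y : Fin 8 → ℝ) : MvPolynomial (Fin 8) ℝ :=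
  (∑ i, MvPolynomial.C (y i) * MvPolynomial.X i) ^ 8

theorem pol_deg (y : Fin 8 → ℝ) : (pol y).totalDegree ≤ 8 := by
  unfold pol
  refine (MvPolynomial.totalDegree_pow _ _).trans ?_
  have : (∑ i, MvPolynomial.C (y i) * MvPolynomial.X i : MvPolynomial (Fin 8) ℝ).totalDegree ≤ 1 := by
    refine (MvPolynomial.totalDegree_finsetSum _ _).trans ?_
    refine Finset.sup_le fun i _ => ?_
    refine (MvPolynomial.totalDegree_mul _ _).trans ?_
    simp
  omega

theorem pol_eval (y x : Fin 8 → ℝ) : MvPolynomial.eval x (pol y) = (∑ i, y i * x i) ^ 8 := by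
  unfold pol
  simp

theorem design_sum {N : ℚ} (hN : 0 ≤ N) {X : Finset (Fin 8 → ℚ)} (hX : ∀ x ∈ X, nsq x = N)
    (hd : IsDesign 8 (N : ℝ) X) : ∑ x ∈ X, G x = 0 := by
  set V := ((volume : Measure (EuclideanSpace ℝ (Fin 8))).toSphere Set.univ).toReal with hV
  have hV0 : V ≠ 0 := vol_ne
  -- one root
  have h1 : ∀ r ∈ roots, ∑ x ∈ X, (∑ i, ((r i : ℝ) / 2) * (x i : ℝ)) ^ 8
      = (X.card : ℝ) * (N : ℝ) ^ 4 / 8 := by
    intro r hr
    have h := hd (pol fun i => (r i : ℝ) / 2) (pol_deg _)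
    simp only [pol_eval] at h
    have hm := ok_mom (fun i => (r i : ℝ) / 2)
    rw [root_sq hr] at hm
    have h2 : (∫ u, (∑ i, ((r i : ℝ) / 2) * (Real.sqrt (N : ℝ) * (u : EuclideanSpace ℝ (Fin 8)) i)) ^ 8
        ∂((volume : Measure (EuclideanSpace ℝ (Fin 8))).toSphere))
        = (N : ℝ) ^ 4 * ∫ u, (∑ i, ((r i : ℝ) / 2) * (u : EuclideanSpace ℝ (Fin 8)) i) ^ 8
        ∂((volume : Measure (EuclideanSpace ℝ (Fin 8))).toSphere) := by
      rw [← integral_const_mul]
      refine integral_congr_ae (Filter.Eventually.of_forall fun u => ?_)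
      simp only
      have h3 : ∑ i, ((r i : ℝ) / 2) * (Real.sqrt (N : ℝ) * (u : EuclideanSpace ℝ (Fin 8)) i)
          = Real.sqrt (N : ℝ) * ∑ i, ((r i : ℝ) / 2) * (u : EuclideanSpace ℝ (Fin 8)) i := by
        rw [Finset.mul_sum]
        refine Finset.sum_congr rfl fun i _ => ?_
        ring
      rw [h3, mul_pow]
      congr 1
      have h4 : Real.sqrt (N : ℝ) ^ 2 = N := Real.sq_sqrt (by exact_mod_cast hN)
      calc Real.sqrt (N : ℝ) ^ 8 = (Real.sqrt (N : ℝ) ^ 2) ^ 4 := by ring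
        _ = _ := by rw [h4]
    rw [h2] at h
    have h5 : (∑ x ∈ X, (∑ i, ((r i : ℝ) / 2) * (x i : ℝ)) ^ 8) * V
        = ((X.card : ℝ) * (N : ℝ) ^ 4 / 8) * V := by
      rw [h]
      have hm' : (∫ u, (∑ i, ((r i : ℝ) / 2) * (u : EuclideanSpace ℝ (Fin 8)) i) ^ 8
        ∂((volume : Measure (EuclideanSpace ℝ (Fin 8))).toSphere)) = V / 8 := by
        have : (2 : ℝ) ^ 4 = 16 := by norm_num
        rw [this] at hm
        linarith
      rw [hm']
      ring
    exact mul_right_cancel₀ hV0 h5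
  have h2 : ((∑ x ∈ X, G x : ℚ) : ℝ) = 0 := by
    push_cast
    have h3 : ∀ x ∈ X, ((G x : ℚ) : ℝ)
        = ∑ r ∈ roots, (∑ i, ((r i : ℝ) / 2) * (x i : ℝ)) ^ 8 - 30 * (N : ℝ) ^ 4 := by
      intro x hx
      unfold G
      rw [hX x hx]
      push_cast
      rw [sub_left_inj]
      refine Finset.sum_congr rfl fun r _ => ?_
      have h6 : (∑ i, (x i : ℝ) * (r i : ℝ)) / 2 = ∑ i, ((r i : ℝ) / 2) * (x i : ℝ) := by
        rw [Finset.sum_div]
        refine Finset.sum_congr rfl fun i _ => ?_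
        ring
      rw [h6]
    rw [Finset.sum_congr rfl h3, Finset.sum_sub_distrib, Finset.sum_comm,
      Finset.sum_congr rfl h1]
    simp only [Finset.sum_const, nsmul_eq_mul, roots_card]
    push_cast
    ring
  exact_mod_cast h2

/-! ## Arithmetic of `G` on the lattice -/

theorem G_zero : G 0 = 0 := by
  have h := ok_ginv.1 0 0
  have h2 : (fun i : Fin 8 => (0 : ℚ) * (0 : Fin 8 → ℚ) i) = 0 := by
    funext i
    simp
  rw [h2] at h
  rw [h]
  ring

/-- `E₈ ∖ 2E₈`: the values of `G`. -/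
theorem G_prim {x : Fin 8 → ℚ} (hx : x ∈ E8) (hx2 : x ∉ twoE8) {m : ℤ} (hm : nsq x = 2 * m) :
    (m % 2 = 1 → ∃ g : ℤ, G x = 16 * (2 * g + 1)) ∧
    (m % 2 = 0 → ∃ g : ℤ, G x = 128 * (2 * g + 1)) := by
  obtain ⟨v, hv, hxv⟩ := hx
  have hx' : x = fun i => (v i : ℚ) / 2 := funext hxv
  have hnp : ¬ ∃ w, InE8 w ∧ v = fun i => 2 * w i := by
    rintro ⟨w, hw, hvw⟩
    apply hx2
    refine ⟨w, hw, fun i => ?_⟩
    rw [hxv i, hvw]
    push_cast
    ring
  have hs : (∑ i, v i ^ 2) = 8 * m := by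
    have h1 : nsq x = (∑ i, (v i : ℚ) ^ 2) / 4 := by
      unfold nsq
      rw [Finset.sum_div]
      refine Finset.sum_congr rfl fun i _ => ?_
      rw [hxv i]
      ring
    rw [hm] at h1
    have h2 : (∑ i, (v i : ℚ) ^ 2) = 8 * m := by linarith
    exact_mod_cast h2
  have hq : (∑ i, v i ^ 2) / 8 = m := by
    rw [hs]
    exact Int.mul_ediv_cancel_left m (by norm_num)
  have h := gval v hv hnp
  rw [hq] at h
  rw [hx']
  exact h

theorem nsq_E8 {x : Fin 8 → ℚ} (hx : x ∈ E8) : ∃ m : ℤ, 0 ≤ m ∧ nsq x = 2 * m := by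
  obtain ⟨v, hv, hxv⟩ := hx
  obtain ⟨m, hm⟩ := ok_basic.2 v hv
  have h1 : nsq x = (∑ i, (v i : ℚ) ^ 2) / 4 := by
    unfold nsq
    rw [Finset.sum_div]
    refine Finset.sum_congr rfl fun i _ => ?_
    rw [hxv i]
    ring
  have h2 : (∑ i, (v i : ℚ) ^ 2) = 8 * m := by exact_mod_cast hm
  refine ⟨m, ?_, ?_⟩
  · have : 0 ≤ ∑ i, v i ^ 2 := Finset.sum_nonneg fun i _ => sq_nonneg _
    omega
  · rw [h1, h2]
    ring

theorem nsq_smul (c : ℚ) (x : Fin 8 → ℚ) : nsq (fun i => c * x i) = c ^ 2 * nsq x := by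
  unfold nsq
  rw [Finset.mul_sum]
  refine Finset.sum_congr rfl fun i _ => ?_
  ring

theorem nsq_pos {x : Fin 8 → ℚ} (hx : x ≠ 0) : 0 < nsq x := by
  unfold nsq
  obtain ⟨i, hi⟩ := Function.ne_iff.mp hx
  exact Finset.sum_pos' (fun i _ => sq_nonneg _) ⟨i, Finset.mem_univ _, by
    have : x i ≠ 0 := hi
    positivity⟩

/-- on the whole lattice `G` takes values in `16 ℤ` -/
theorem G_int : ∀ (n : ℕ) (x : Fin 8 → ℚ), x ∈ E8 → nsq x < 2 * (n : ℚ) → ∃ g : ℤ, G x = 16 * g := by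
  intro n
  induction n using Nat.strong_induction_on with
  | _ n ih =>
    intro x hx hlt
    by_cases h0 : x = 0
    · exact ⟨0, by rw [h0, G_zero]; simp⟩
    by_cases h2 : x ∈ twoE8
    · obtain ⟨v, hv, hxv⟩ := h2
      set y : Fin 8 → ℚ := fun i => (v i : ℚ) / 2 with hy
      have hyE : y ∈ E8 := ⟨v, hv, fun i => rfl⟩
      have hxy : x = fun i => 2 * y i := by
        funext i
        rw [hxv i, hy]
        simp only
        ring
      have hn : nsq x = 4 * nsq y := by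
        rw [hxy, nsq_smul]
        norm_num
      have hpos := nsq_pos h0
      obtain ⟨m, hm0, hm⟩ := nsq_E8 hyE
      have hlt' : 4 * (2 * (m : ℚ)) < 2 * (n : ℚ) := by rw [← hm, ← hn]; exact hlt
      have hmpos : 0 < m := by
        have : (0 : ℚ) < 2 * m := by rw [← hm]; linarith
        have : (0 : ℚ) < m := by linarith
        exact_mod_cast this
      have hmn : 4 * m < n := by
        have : 4 * (m : ℚ) < n := by linarith
        exact_mod_cast this
      obtain ⟨g, hg⟩ := ih (m.toNat + 1) (by omega) y hyE (by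
        rw [hm]
        have : ((m.toNat : ℤ) : ℚ) = m := by rw [Int.toNat_of_nonneg hm0]
        push_cast at this ⊢
        rw [this]
        linarith)
      refine ⟨2 ^ 8 * g, ?_⟩
      rw [hxy, ok_ginv.1, hg]
      push_cast
      ring
    · obtain ⟨m, hm0, hm⟩ := nsq_E8 hx
      have h := G_prim hx h2 hm
      rcases Int.emod_two_eq_zero_or_one m with hmm | hmm
      · obtain ⟨g, hg⟩ := h.2 hmm
        exact ⟨8 * (2 * g + 1), by rw [hg]; push_cast; ring⟩
      · obtain ⟨g, hg⟩ := h.1 hmm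
        exact ⟨2 * g + 1, by rw [hg]; push_cast; ring⟩

theorem G_int' {x : Fin 8 → ℚ} (hx : x ∈ E8) : ∃ g : ℤ, G x = 16 * g := by
  obtain ⟨m, hm0, hm⟩ := nsq_E8 hx
  refine G_int (m.toNat + 1) x hx ?_
  rw [hm]
  have : ((m.toNat : ℤ) : ℚ) = m := by rw [Int.toNat_of_nonneg hm0]
  push_cast at this ⊢
  rw [this]
  linarith

theorem G_prim_ne {x : Fin 8 → ℚ} (hx : x ∈ E8) (hx2 : x ∉ twoE8) : G x ≠ 0 := by
  obtain ⟨m, hm0, hm⟩ := nsq_E8 hx
  have h := G_prim hx hx2 hm
  rcases Int.emod_two_eq_zero_or_one m with hmm | hmm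
  · obtain ⟨g, hg⟩ := h.2 hmm
    rw [hg]
    have : (2 * g + 1 : ℤ) ≠ 0 := by omega
    have h2 : ((2 * g + 1 : ℤ) : ℚ) ≠ 0 := by exact_mod_cast this
    push_cast at h2
    positivity
  · obtain ⟨g, hg⟩ := h.1 hmm
    rw [hg]
    have : (2 * g + 1 : ℤ) ≠ 0 := by omega
    have h2 : ((2 * g + 1 : ℤ) : ℚ) ≠ 0 := by exact_mod_cast this
    push_cast at h2
    positivity

/-- `G` does not vanish at nonzero lattice vectors -/
theorem G_E8_ne : ∀ (n : ℕ) (x : Fin 8 → ℚ), x ∈ E8 → x ≠ 0 → nsq x < 2 * (n : ℚ) → G x ≠ 0 := by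
  intro n
  induction n using Nat.strong_induction_on with
  | _ n ih =>
    intro x hx h0 hlt
    by_cases h2 : x ∈ twoE8
    · obtain ⟨v, hv, hxv⟩ := h2
      set y : Fin 8 → ℚ := fun i => (v i : ℚ) / 2 with hy
      have hyE : y ∈ E8 := ⟨v, hv, fun i => rfl⟩
      have hxy : x = fun i => 2 * y i := by
        funext i
        rw [hxv i, hy]
        simp only
        ring
      have hn : nsq x = 4 * nsq y := by
        rw [hxy, nsq_smul]
        norm_num
      have hpos := nsq_pos h0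
      have hy0 : y ≠ 0 := by
        intro h
        apply h0
        rw [hxy, h]
        funext i
        simp
      obtain ⟨m, hm0, hm⟩ := nsq_E8 hyE
      have hlt' : 4 * (2 * (m : ℚ)) < 2 * (n : ℚ) := by rw [← hm, ← hn]; exact hlt
      have hmpos : 0 < m := by
        have : (0 : ℚ) < 2 * m := by rw [← hm]; linarith
        have : (0 : ℚ) < m := by linarith
        exact_mod_cast this
      have hmn : 4 * m < n := by
        have : 4 * (m : ℚ) < n := by linarith
        exact_mod_cast this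
      have hg := ih (m.toNat + 1) (by omega) y hyE hy0 (by
        rw [hm]
        have : ((m.toNat : ℤ) : ℚ) = m := by rw [Int.toNat_of_nonneg hm0]
        push_cast at this ⊢
        rw [this]
        linarith)
      rw [hxy, ok_ginv.1]
      exact mul_ne_zero (by norm_num) hg
    · exact G_prim_ne hx h2

/-- `G` does not vanish at nonzero rational vectors -/
theorem G_ne {x : Fin 8 → ℚ} (hx : x ≠ 0) : G x ≠ 0 := by
  -- clear denominators
  set D : ℕ := ∏ i, (x i).den with hD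
  have hDpos : (D : ℚ) ≠ 0 := by
    rw [hD]
    push_cast
    exact Finset.prod_ne_zero_iff.mpr fun i _ => by exact_mod_cast (x i).den_nz
  have hint : ∀ i, ∃ z : ℤ, (D : ℚ) * x i = z := by
    intro i
    have : (x i).den ∣ D := by
      rw [hD]
      exact Finset.dvd_prod_of_mem _ (Finset.mem_univ i)
    obtain ⟨c, hc⟩ := this
    refine ⟨c * (x i).num, ?_⟩
    rw [hc]
    push_cast
    have h1 : ((x i).den : ℚ) * x i = (x i).num := by
      rw [mul_comm]
      exact Rat.mul_den_eq_num (x i)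
    calc ((x i).den : ℚ) * c * x i = c * (((x i).den : ℚ) * x i) := by ring
      _ = _ := by rw [h1]
  choose z hz using hint
  set y : Fin 8 → ℚ := fun i => (4 * D : ℚ) * x i with hy
  have hyE : y ∈ E8 := by
    refine ⟨fun i => 8 * z i, ⟨fun i j => by show 8 * z i % 2 = 8 * z j % 2; omega, ?_⟩,
      fun i => ?_⟩
    · rw [← Finset.mul_sum]
      omega
    · rw [hy]
      simp only
      rw [mul_assoc, hz i]
      push_cast
      ring
  have hy0 : y ≠ 0 := by
    obtain ⟨i, hi⟩ := Function.ne_iff.mp hx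
    refine Function.ne_iff.mpr ⟨i, ?_⟩
    have : x i ≠ 0 := hi
    rw [hy]
    simp only [Pi.zero_apply]
    exact mul_ne_zero (mul_ne_zero (by norm_num) hDpos) this
  obtain ⟨m, hm0, hm⟩ := nsq_E8 hyE
  have h := G_E8_ne (m.toNat + 1) y hyE hy0 (by
    rw [hm]
    have : ((m.toNat : ℤ) : ℚ) = m := by rw [Int.toNat_of_nonneg hm0]
    push_cast at this ⊢
    rw [this]
    linarith)
  intro h0
  apply h
  rw [hy, ok_ginv.1, h0, mul_zero]

/-! ## Level sets -/

theorem Stable_filter {X : Finset (Fin 8 → ℚ)} (hX : Stable X) (P : (Fin 8 → ℚ) → Prop)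
    [DecidablePred P] (hP : ∀ g, IsAut g → ∀ x, P x → P (g x)) : Stable (X.filter P) := by
  intro g hg x hx
  rw [Finset.mem_filter] at hx ⊢
  exact ⟨hX g hg x hx.1, hP g hg x hx.2⟩

theorem two_stable (g : (Fin 8 → ℚ) ≃ₗ[ℚ] (Fin 8 → ℚ)) (hg : IsAut g) (x : Fin 8 → ℚ) :
    g x ∈ twoE8 ↔ x ∈ twoE8 := by
  have key : ∀ y : Fin 8 → ℚ, y ∈ twoE8 ↔ (fun i => y i / 2) ∈ E8 := by
    intro y
    constructor
    · rintro ⟨v, hv, h⟩
      exact ⟨v, hv, fun i => by simp only [h i]⟩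
    · rintro ⟨v, hv, h⟩
      refine ⟨v, hv, fun i => ?_⟩
      have := h i
      simp only at this
      linarith
  rw [key, key]
  have : (fun i => (g x) i / 2) = g fun i => x i / 2 := by
    have h1 : (fun i => x i / 2) = (1 / 2 : ℚ) • x := by
      funext i
      simp only [Pi.smul_apply, smul_eq_mul]
      ring
    rw [h1, map_smul]
    funext i
    simp only [Pi.smul_apply, smul_eq_mul]
    ring
  rw [this, hg.2]

/-- the sum of an integer valued invariant function over a stable set is divisible by `240` -/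
theorem sum_dvd {X : Finset (Fin 8 → ℚ)} (h0 : (0 : Fin 8 → ℚ) ∉ X) (hX : Stable X)
    (f : (Fin 8 → ℚ) → ℤ) (hf : ∀ g, IsAut g → ∀ x ∈ X, f (g x) = f x) :
    (240 : ℤ) ∣ ∑ x ∈ X, f x := by
  classical
  rw [← Finset.sum_fiberwise_of_maps_to (s := X) (t := X.image f)
    (fun x hx => Finset.mem_image_of_mem f hx) f]
  refine Finset.dvd_sum fun c _ => ?_
  rw [Finset.sum_congr rfl (fun x hx => (Finset.mem_filter.mp hx).2), Finset.sum_const,
    nsmul_eq_mul]
  refine Dvd.dvd.mul_right ?_ _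
  have h1 : Stable (X.filter fun x => f x = c) := by
    intro g hg x hx
    rw [Finset.mem_filter] at hx ⊢
    exact ⟨hX g hg x hx.1, by rw [hf g hg x hx.1, hx.2]⟩
  have h2 := ok_div (X.filter fun x => f x = c) (fun h => h0 (Finset.mem_filter.mp h).1) h1
  exact_mod_cast h2

theorem zero_two : (0 : Fin 8 → ℚ) ∈ twoE8 := ⟨0, by decide, fun i => by simp⟩

theorem two_sub {x : Fin 8 → ℚ} (hx : x ∈ twoE8) : ∃ y ∈ E8, x = fun i => 2 * y i := by
  obtain ⟨v, hv, h⟩ := hx
  refine ⟨fun i => (v i : ℚ) / 2, ⟨v, hv, fun i => rfl⟩, ?_⟩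
  funext i
  rw [h i]
  ring

open Classical in
theorem main {m : ℕ} {X : Finset (Fin 8 → ℚ)} (hm : 0 < m)
    (hX : ∀ x ∈ X, x ∈ E8 ∧ nsq x = 2 * m) (hs : Stable X) (hd : IsDesign 8 (2 * m) X) :
    480 ∣ (X.filter fun x => x ∉ twoE8).card := by
  have hsum : ∑ x ∈ X, G x = 0 :=
    design_sum (N := 2 * m) (by positivity) (fun x hx => (hX x hx).2) (by
      have : ((2 * (m : ℚ) : ℚ) : ℝ) = 2 * (m : ℝ) := by push_cast; ring
      rw [this]
      exact hd)
  have h0 : (0 : Fin 8 → ℚ) ∉ X := by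
    intro h
    have := (hX 0 h).2
    have h1 : nsq (0 : Fin 8 → ℚ) = 0 := by simp [nsq]
    rw [h1] at this
    have : (m : ℚ) = 0 := by linarith
    have : m = 0 := by exact_mod_cast this
    omega
  -- exponent
  obtain ⟨e, he, hY⟩ : ∃ e : ℤ, (e = 16 ∨ e = 128) ∧
      ∀ x ∈ X.filter (fun x => x ∉ twoE8), ∃ g : ℤ, G x = e * (2 * g + 1) := by
    rcases Nat.mod_two_eq_zero_or_one m with hmm | hmm
    · refine ⟨128, Or.inr rfl, fun x hx => ?_⟩
      rw [Finset.mem_filter] at hx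
      have h := (G_prim (hX x hx.1).1 hx.2 (m := m) (by
        rw [(hX x hx.1).2]; push_cast; rfl)).2 (by omega)
      obtain ⟨g, hg⟩ := h
      exact ⟨g, by rw [hg]; push_cast; ring⟩
    · refine ⟨16, Or.inl rfl, fun x hx => ?_⟩
      rw [Finset.mem_filter] at hx
      have h := (G_prim (hX x hx.1).1 hx.2 (m := m) (by
        rw [(hX x hx.1).2]; push_cast; rfl)).1 (by omega)
      obtain ⟨g, hg⟩ := h
      exact ⟨g, by rw [hg]; push_cast; ring⟩
  have he0 : (e : ℚ) ≠ 0 := by rcases he with h | h <;> rw [h] <;> norm_num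
  set Y := X.filter (fun x => x ∉ twoE8) with hYdef
  set Z := X.filter (fun x => ¬ x ∉ twoE8) with hZdef
  have hsplit : ∑ x ∈ Y, G x + ∑ x ∈ Z, G x = 0 := by
    rw [hYdef, hZdef, Finset.sum_filter_add_sum_filter_not, hsum]
  -- integer functions
  set f : (Fin 8 → ℚ) → ℤ := fun x => (⌊G x / e⌋ - 1) / 2 with hf
  set k : (Fin 8 → ℚ) → ℤ := fun x => ⌊G x / (2 * e)⌋ with hk
  have hYf : ∀ x ∈ Y, G x = e * (2 * f x + 1) := by
    intro x hx
    obtain ⟨g, hg⟩ := hY x hx
    have h1 : G x / e = ((2 * g + 1 : ℤ) : ℚ) := by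
      rw [hg]
      push_cast
      field_simp
    have h2 : f x = g := by
      rw [hf]
      simp only
      rw [h1, Int.floor_intCast]
      omega
    rw [h2, hg]
  have hZk : ∀ x ∈ Z, G x = 2 * e * k x := by
    intro x hx
    rw [hZdef, Finset.mem_filter, not_not] at hx
    obtain ⟨y, hy, hxy⟩ := two_sub hx.2
    obtain ⟨g, hg⟩ := G_int' hy
    have h1 : ∃ c : ℤ, G x / (2 * e) = c := by
      rw [hxy, ok_ginv.1, hg]
      rcases he with h | h
      · exact ⟨2 ^ 7 * g, by rw [h]; push_cast; ring⟩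
      · exact ⟨2 ^ 4 * g, by rw [h]; push_cast; ring⟩
    obtain ⟨c, hc⟩ := h1
    have h2 : k x = c := by
      rw [hk]
      simp only
      rw [hc, Int.floor_intCast]
    rw [h2, ← hc]
    field_simp
  have hinv : ∀ g, IsAut g → ∀ x, G (g x) = G x := ok_ginv.2
  have hYst : Stable Y := by
    rw [hYdef]
    exact Stable_filter hs _ fun g hg x hx h => hx ((two_stable g hg x).mp h)
  have hZst : Stable Z := by
    rw [hZdef]
    refine Stable_filter hs _ fun g hg x hx => ?_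
    rw [not_not] at hx ⊢
    exact (two_stable g hg x).mpr hx
  have hY240 : (240 : ℤ) ∣ ∑ x ∈ Y, f x :=
    sum_dvd (fun h => h0 (Finset.mem_filter.mp h).1) hYst f fun g hg x _ => by
      rw [hf]
      simp only
      rw [hinv g hg x]
  have hZ240 : (240 : ℤ) ∣ ∑ x ∈ Z, k x :=
    sum_dvd (fun h => h0 (Finset.mem_filter.mp h).1) hZst k fun g hg x _ => by
      rw [hk]
      simp only
      rw [hinv g hg x]
  have hfin : (Y.card : ℤ) = - 2 * ∑ x ∈ Y, f x - 2 * ∑ x ∈ Z, k x := by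
    have h1 : ∑ x ∈ Y, G x = e * (2 * ((∑ x ∈ Y, f x : ℤ) : ℚ) + Y.card) := by
      rw [Finset.sum_congr rfl hYf, ← Finset.mul_sum, Finset.sum_add_distrib, ← Finset.mul_sum]
      push_cast
      simp
    have h2 : ∑ x ∈ Z, G x = 2 * e * ((∑ x ∈ Z, k x : ℤ) : ℚ) := by
      rw [Finset.sum_congr rfl hZk, ← Finset.mul_sum]
      push_cast
      rfl
    rw [h1, h2] at hsplit
    have h3 : (e : ℚ) * ((2 * ((∑ x ∈ Y, f x : ℤ) : ℚ) + Y.card) + 2 * ((∑ x ∈ Z, k x : ℤ) : ℚ))
        = 0 := by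
      rw [← hsplit]
      ring
    have h4 := (mul_eq_zero.mp h3).resolve_left he0
    have h5 : (Y.card : ℚ) = - 2 * ((∑ x ∈ Y, f x : ℤ) : ℚ) - 2 * ((∑ x ∈ Z, k x : ℤ) : ℚ) := by
      linarith
    exact_mod_cast h5
  have : (480 : ℤ) ∣ Y.card := by
    rw [hfin]
    obtain ⟨a, ha⟩ := hY240
    obtain ⟨b, hb⟩ := hZ240
    rw [ha, hb]
    exact ⟨-a - b, by ring⟩
  exact_mod_cast this

/-- no orbit of a nonzero rational vector is a spherical `8`-design -/
theorem orbit_not_design (x : Fin 8 → ℚ) (X : Finset (Fin 8 → ℚ)) (hx : x ≠ 0)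
    (hX : ∀ y, y ∈ X ↔ ∃ g, IsAut g ∧ y = g x) : ¬ IsDesign 8 (nsq x : ℝ) X := by
  intro hd
  have hsq : ∀ y ∈ X, nsq y = nsq x := by
    intro y hy
    obtain ⟨g, hg, rfl⟩ := (hX y).mp hy
    exact hg.1 x
  have hsum := design_sum (nsq_pos hx).le hsq hd
  have hc : ∀ y ∈ X, G y = G x := by
    intro y hy
    obtain ⟨g, hg, rfl⟩ := (hX y).mp hy
    exact ok_ginv.2 g hg x
  rw [Finset.sum_congr rfl hc, Finset.sum_const, nsmul_eq_mul] at hsum
  rcases mul_eq_zero.mp hsum with h | h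
  · have h1 : X.card = 0 := by exact_mod_cast h
    rw [Finset.card_eq_zero] at h1
    have h2 : x ∈ X := (hX x).mpr ⟨LinearEquiv.refl ℚ _, ⟨fun _ => rfl, fun _ => Iff.rfl⟩, rfl⟩
    rw [h1] at h2
    exact absurd h2 (Finset.notMem_empty _)
  · exact G_ne hx h

open Classical in
/-- in a shell of odd index there are no vectors of `2E₈` -/
theorem odd_filter {m : ℕ} {X : Finset (Fin 8 → ℚ)} (hX : ∀ x ∈ X, x ∈ E8 ∧ nsq x = 2 * m)
    (hodd : Odd m) : X.filter (fun x => x ∉ twoE8) = X := by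
  rw [Finset.filter_eq_self]
  intro x hx h2
  obtain ⟨y, hy, hxy⟩ := two_sub h2
  obtain ⟨c, _, hc⟩ := nsq_E8 hy
  have h3 := (hX x hx).2
  rw [hxy, nsq_smul, hc] at h3
  have h4 : (4 * c : ℚ) = m := by linarith
  have h5 : 4 * c = (m : ℤ) := by exact_mod_cast h4
  obtain ⟨j, hj⟩ := hodd
  omega

end Pool.Agent.H159.EW.Fin8
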