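import Pool.Agent.H159.EW.Defs

set_option autoImplicit false

namespace Pool.Agent.H159.EW

theorem InE8.cases {v : Fin 8 → ℤ} (h : InE8 v) :
    (∃ a : Fin 8 → ℤ, (∀ i, v i = 2 * a i) ∧ (∑ i, a i) % 2 = 0) ∨
    (∃ a : Fin 8 → ℤ, (∀ i, v i = 2 * a i + 1) ∧ (∑ i, a i) % 2 = 0) := by
  obtain ⟨h1, h2⟩ := h
  rcases Int.emod_two_eq_zero_or_one (v 0) with h0 | h0
  · left
    refine ⟨fun i => v i / 2, fun i => ?_, ?_⟩
    · have := h1 i 0; simp only; omega
    · have hh : ∀ i, v i = 2 * (v i / 2) := fun i => by have := h1 i 0; omega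
      have : ∑ i, v i = 2 * ∑ i, v i / 2 := by
        rw [Finset.mul_sum]; exact Finset.sum_congr rfl fun i _ => hh i
      show (∑ i, v i / 2) % 2 = 0
      omega
  · right
    refine ⟨fun i => v i / 2, fun i => ?_, ?_⟩
    · have := h1 i 0; simp only; omega
    · have hh : ∀ i, v i = 2 * (v i / 2) + 1 := fun i => by have := h1 i 0; omega
      have : ∑ i, v i = 2 * (∑ i, v i / 2) + 8 := by
        rw [Finset.mul_sum]
        calc ∑ i, v i = ∑ i, (2 * (v i / 2) + 1) := Finset.sum_congr rfl fun i _ => hh i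
          _ = _ := by rw [Finset.sum_add_distrib]; simp
      show (∑ i, v i / 2) % 2 = 0
      omega

theorem ok_basic : S_basic := by
  refine ⟨fun v w hv hw => ?_, fun v hv => ?_⟩
  · rcases hv.cases with ⟨a, ha, ha'⟩ | ⟨a, ha, ha'⟩ <;>
      rcases hw.cases with ⟨b, hb, hb'⟩ | ⟨b, hb, hb'⟩
    · refine ⟨∑ i, a i * b i, ?_⟩
      unfold ip
      rw [Finset.mul_sum]
      exact Finset.sum_congr rfl fun i _ => by rw [ha, hb]; ring
    · have : ip v w = 4 * (∑ i, a i * b i) + 2 * ∑ i, a i := by
        unfold ip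
        rw [Finset.mul_sum, Finset.mul_sum, ← Finset.sum_add_distrib]
        exact Finset.sum_congr rfl fun i _ => by rw [ha, hb]; ring
      omega
    · have : ip v w = 4 * (∑ i, a i * b i) + 2 * ∑ i, b i := by
        unfold ip
        rw [Finset.mul_sum, Finset.mul_sum, ← Finset.sum_add_distrib]
        exact Finset.sum_congr rfl fun i _ => by rw [ha, hb]; ring
      omega
    · have : ip v w = 4 * (∑ i, a i * b i) + 2 * (∑ i, a i) + 2 * (∑ i, b i) + 8 := by
        unfold ip
        have e8 : (8 : ℤ) = ∑ _i : Fin 8, 1 := by simp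
        rw [e8, Finset.mul_sum, Finset.mul_sum, Finset.mul_sum, ← Finset.sum_add_distrib,
          ← Finset.sum_add_distrib, ← Finset.sum_add_distrib]
        exact Finset.sum_congr rfl fun i _ => by rw [ha, hb]; ring
      omega
  · rcases hv.cases with ⟨a, ha, ha'⟩ | ⟨a, ha, ha'⟩
    · have h1 : ∑ i, v i ^ 2 = 4 * ∑ i, a i ^ 2 := by
        rw [Finset.mul_sum]
        exact Finset.sum_congr rfl fun i _ => by rw [ha]; ring
      have h2 : (2 : ℤ) ∣ (∑ i, a i ^ 2) - ∑ i, a i := by
        rw [← Finset.sum_sub_distrib]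
        refine Finset.dvd_sum fun i _ => ?_
        have : a i ^ 2 - a i = (a i - 1) * a i := by ring
        rw [this]
        rcases Int.even_or_odd (a i) with h | h
        · exact (even_iff_two_dvd.mp h).mul_left _
        · exact (even_iff_two_dvd.mp (h.sub_odd odd_one)).mul_right _
      omega
    · have h1 : ∑ i, v i ^ 2 = 4 * (∑ i, (a i ^ 2 + a i)) + 8 := by
        have e8 : (8 : ℤ) = ∑ _i : Fin 8, 1 := by simp
        rw [e8, Finset.mul_sum, ← Finset.sum_add_distrib]
        exact Finset.sum_congr rfl fun i _ => by rw [ha]; ring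
      have h2 : (2 : ℤ) ∣ (∑ i, (a i ^ 2 + a i)) := by
        refine Finset.dvd_sum fun i _ => ?_
        have : a i ^ 2 + a i = (a i + 1) * a i := by ring
        rw [this]
        rcases Int.even_or_odd (a i) with h | h
        · exact (even_iff_two_dvd.mp h).mul_left _
        · exact (even_iff_two_dvd.mp (h.add_odd odd_one)).mul_right _
      omega

end Pool.Agent.H159.EW
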