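import Pool.Agent.H159.EW.J_GInv

set_option autoImplicit false

namespace Pool.Agent.H159.EW

/-! ## Two counting lemmas -/

theorem iter_congr {α : Type*} {A : α → α} (hA : ∀ x, A^[8] x = x) {m n : ℕ}
    (h : m % 8 = n % 8) (x : α) : A^[m] x = A^[n] x := by
  have h1 : Function.IsPeriodicPt A 8 x := hA x
  rw [← h1.iterate_mod_apply m, ← h1.iterate_mod_apply n, h]

theorem iter_B {α : Type*} {A B : α → α} (hA : ∀ x, A^[8] x = x)
    (hAB : ∀ x, A (B (A x)) = B x) (m : ℕ) : ∀ x, A^[m] (B x) = B (A^[7 * m] x) := by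
  have h1 : ∀ x, A (B x) = B (A^[7] x) := by
    intro x
    have h2 := hAB (A^[7] x)
    have h3 : A (A^[7] x) = x := by
      have := hA x
      rwa [Function.iterate_succ_apply'] at this
    rw [h3] at h2
    exact h2
  induction m with
  | zero => intro x; rfl
  | succ m ih =>
    intro x
    rw [Function.iterate_succ_apply, h1, ih, ← Function.iterate_add_apply]
    rfl

/-- the action of the quaternion group of order `16` -/
def qact {α : Type*} (A B : α → α) : QuaternionGroup 4 → α → α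
  | QuaternionGroup.a i, x => A^[i.val] x
  | QuaternionGroup.xa i, x => B (A^[i.val] x)

theorem sixteen_dvd {α : Type*} [Finite α] (A B N : α → α)
    (hA4 : ∀ x, A^[4] x = N x) (hNN : ∀ x, N (N x) = x) (hN : ∀ x, N x ≠ x)
    (hB : ∀ x, B (B x) = N x) (hAB : ∀ x, A (B (A x)) = B x) : 16 ∣ Nat.card α := by
  have hA : ∀ x, A^[8] x = x := by
    intro x
    have : A^[8] x = A^[4] (A^[4] x) := by rw [← Function.iterate_add_apply]
    rw [this, hA4, hA4, hNN]
  let act : MulAction (QuaternionGroup 4) α :=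
    { smul := qact A B
      one_smul := fun x => rfl
      mul_smul := by
        intro g h x
        rcases g with i | i <;> rcases h with j | j
        · show A^[(i + j).val] x = A^[i.val] (A^[j.val] x)
          rw [← Function.iterate_add_apply]
          exact iter_congr hA (by revert i j; decide) x
        · show B (A^[(j - i).val] x) = A^[i.val] (B (A^[j.val] x))
          rw [iter_B hA hAB, ← Function.iterate_add_apply]
          exact congrArg B (iter_congr hA (by revert i j; decide) x)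
        · show B (A^[(i + j).val] x) = B (A^[i.val] (A^[j.val] x))
          rw [← Function.iterate_add_apply]
          exact congrArg B (iter_congr hA (by revert i j; decide) x)
        · show A^[((4 : ℕ) + j - i : ZMod (2 * 4)).val] x = B (A^[i.val] (B (A^[j.val] x)))
          rw [iter_B hA hAB, hB, ← hA4, ← Function.iterate_add_apply,
            ← Function.iterate_add_apply]
          exact iter_congr hA (by revert i j; decide) x }
  have hfree : ∀ x : α, MulAction.stabilizer (QuaternionGroup 4) x = ⊥ := by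
    intro x
    rw [Subgroup.eq_bot_iff_forall]
    intro g hg
    by_contra hne
    have hg' : g • x = x := hg
    have hpow : ∀ k : ℕ, g ^ k • x = x := by
      intro k
      induction k with
      | zero => rw [pow_zero]; exact one_smul _ x
      | succ k ih => rw [pow_succ, mul_smul, hg', ih]
    have hk : ∃ k ∈ Finset.range 8, g ^ k = QuaternionGroup.a 4 := by
      revert hne
      clear hg hg' hpow
      revert g
      decide
    obtain ⟨k, -, hk⟩ := hk
    have h1 := hpow k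
    rw [hk] at h1
    have h2 : A^[4] x = x := h1
    rw [hA4] at h2
    exact hN x h2
  have e := MulAction.selfEquivOrbitsQuotientProd hfree
  rw [Nat.card_congr e, Nat.card_prod, Nat.card_eq_fintype_card (α := QuaternionGroup 4),
    QuaternionGroup.card]
  exact Dvd.intro_left _ rfl

theorem prime_dvd {α : Type*} [Finite α] (p : ℕ) [hp : Fact p.Prime] (f : α → α)
    (hf : ∀ x, f^[p] x = x) (hfix : ∀ x, f x ≠ x) : p ∣ Nat.card α := by
  classical
  have := Fintype.ofFinite α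
  let F : Function.End α := f
  have h1 : F ^ p ^ 1 = 1 := by
    rw [pow_one]
    have h0 : (fun g : Function.End α => (g : α → α)) (F ^ p) = f^[p] :=
      hom_coe_pow (fun g : Function.End α => (g : α → α)) rfl (fun g h => rfl) F p
    refine h0.trans ?_
    funext x
    exact hf x
  have h2 := Equiv.Perm.card_fixedPoints_modEq h1
  have h3 : Fintype.card (Function.fixedPoints F) = 0 := by
    rw [Fintype.card_eq_zero_iff]
    exact ⟨fun x => hfix x.1 x.2⟩
  rw [Nat.card_eq_fintype_card]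
  exact (Nat.modEq_zero_iff_dvd).mp (h2.trans (by rw [h3]))

/-! ## Automorphisms -/

theorem nsq_eq_zero {x : Fin 8 → ℚ} (h : nsq x = 0) : x = 0 := by
  funext i
  unfold nsq at h
  have := (Finset.sum_eq_zero_iff_of_nonneg (fun i _ => sq_nonneg (x i))).mp h i
    (Finset.mem_univ i)
  simpa using this

theorem aut_of (f : (Fin 8 → ℚ) →ₗ[ℚ] (Fin 8 → ℚ)) (n : ℕ) (hn : ∀ x, f^[n + 1] x = x)
    (hq : ∀ x, nsq (f x) = nsq x) (hE : ∀ x ∈ E8, f x ∈ E8) :
    ∃ g : (Fin 8 → ℚ) ≃ₗ[ℚ] (Fin 8 → ℚ), IsAut g ∧ ∀ x, g x = f x := by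
  have hinj : Function.Injective f := by
    rw [injective_iff_map_eq_zero]
    intro x hx
    apply nsq_eq_zero
    rw [← hq, hx]
    unfold nsq; simp
  refine ⟨LinearEquiv.ofInjectiveEndo f hinj, ⟨hq, fun x => ⟨fun h => ?_, fun h => ?_⟩⟩,
    fun x => rfl⟩
  · have h1 : ∀ m : ℕ, ∀ y ∈ E8, f^[m] y ∈ E8 := by
      intro m
      induction m with
      | zero => intro y hy; exact hy
      | succ m ih => intro y hy; rw [Function.iterate_succ_apply]; exact ih _ (hE y hy)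
    have h2 := h1 n (f x) h
    rw [← Function.iterate_succ_apply, hn] at h2
    exact h2
  · exact hE x h

/-- the linear map with a given matrix of integers, divided by `d` -/
def lin (M : Fin 8 → Fin 8 → ℤ) (d : ℚ) : (Fin 8 → ℚ) →ₗ[ℚ] (Fin 8 → ℚ) where
  toFun x i := (∑ j, (M i j : ℚ) * x j) / d
  map_add' x y := by
    funext i
    simp only [Pi.add_apply, mul_add, Finset.sum_add_distrib, add_div]
  map_smul' c x := by
    funext i
    simp only [Pi.smul_apply, smul_eq_mul, RingHom.id_apply]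
    rw [← mul_div_assoc, Finset.mul_sum]
    exact congrArg (· / d) (Finset.sum_congr rfl fun j _ => by ring)

theorem lin_apply (M : Fin 8 → Fin 8 → ℤ) (d : ℚ) (x : Fin 8 → ℚ) (i : Fin 8) :
    lin M d x i = (∑ j, (M i j : ℚ) * x j) / d := rfl

def mulF (M N : Fin 8 → Fin 8 → ℤ) : Fin 8 → Fin 8 → ℤ := fun i j => ∑ k, M i k * N k j

theorem lin_lin (M N : Fin 8 → Fin 8 → ℤ) (d e : ℚ) (x : Fin 8 → ℚ) :
    lin M d (lin N e x) = lin (mulF M N) (d * e) x := by
  funext i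
  simp only [lin_apply, mulF]
  have h1 : ∀ k, (M i k : ℚ) * ((∑ j, (N k j : ℚ) * x j) / e) =
      (∑ j, (M i k : ℚ) * (N k j : ℚ) * x j) / e := by
    intro k
    rw [← mul_div_assoc, Finset.mul_sum]
    exact congrArg (· / e) (Finset.sum_congr rfl fun j _ => by ring)
  rw [Finset.sum_congr rfl fun k _ => h1 k, ← Finset.sum_div, Finset.sum_comm, div_div, mul_comm e d]
  refine congrArg (· / (d * e)) (Finset.sum_congr rfl fun j _ => ?_)
  push_cast
  rw [Finset.sum_mul]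

/-- scalar matrix -/
def scF (c : ℤ) : Fin 8 → Fin 8 → ℤ := fun i j => if i = j then c else 0

theorem lin_sc (c : ℤ) (d : ℚ) (x : Fin 8 → ℚ) : lin (scF c) d x = ((c : ℚ) / d) • x := by
  funext i
  simp only [lin_apply, scF, Pi.smul_apply, smul_eq_mul]
  rw [Finset.sum_eq_single i (fun j _ hj => by rw [if_neg hj.symm]; simp) (by simp)]
  simp; ring

def MA : Fin 8 → Fin 8 → ℤ := ![
  ![0, 0, 0, -2, 0, 0, 0, 0], ![2, 0, 0, 0, 0, 0, 0, 0], ![0, 2, 0, 0, 0, 0, 0, 0],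
  ![0, 0, 2, 0, 0, 0, 0, 0], ![0, 0, 0, 0, 0, 0, 0, -2], ![0, 0, 0, 0, 2, 0, 0, 0],
  ![0, 0, 0, 0, 0, 2, 0, 0], ![0, 0, 0, 0, 0, 0, 2, 0]]

/-- `(z, w) ↦ (- conj w, conj z)` -/
def MB : Fin 8 → Fin 8 → ℤ := ![
  ![0, 0, 0, 0, -2, 0, 0, 0], ![0, 0, 0, 0, 0, 0, 0, 2], ![0, 0, 0, 0, 0, 0, 2, 0],
  ![0, 0, 0, 0, 0, 2, 0, 0], ![2, 0, 0, 0, 0, 0, 0, 0], ![0, 0, 0, -2, 0, 0, 0, 0],
  ![0, 0, -2, 0, 0, 0, 0, 0], ![0, -2, 0, 0, 0, 0, 0, 0]]

def MT : Fin 8 → Fin 8 → ℤ := ![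
  ![-1, -1, -1, -1, 0, 0, 0, 0], ![1, -1, -1, 1, 0, 0, 0, 0], ![1, 1, -1, -1, 0, 0, 0, 0],
  ![1, -1, 1, -1, 0, 0, 0, 0], ![0, 0, 0, 0, -1, -1, -1, -1], ![0, 0, 0, 0, 1, -1, -1, 1],
  ![0, 0, 0, 0, 1, 1, -1, -1], ![0, 0, 0, 0, 1, -1, 1, -1]]

def MF : Fin 8 → Fin 8 → ℤ := ![
  ![0, -1, 0, -1, 0, 0, 1, -1], ![0, -1, 0, 1, 0, 0, -1, -1], ![1, 0, -1, 0, 1, 1, 0, 0],
  ![1, 0, 1, 0, -1, 1, 0, 0], ![1, 0, -1, 0, -1, -1, 0, 0], ![0, -1, 0, -1, 0, 0, -1, 1],
  ![-1, 0, -1, 0, -1, 1, 0, 0], ![0, 1, 0, -1, 0, 0, -1, -1]]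


theorem MA4 : mulF (mulF MA MA) (mulF MA MA) = scF (-16) := by
  funext i j; revert i j; decide +kernel

theorem MB2 : mulF MB MB = scF (-4) := by
  funext i j; revert i j; decide +kernel

theorem MABA : mulF (mulF MA MB) MA = fun i j => 4 * MB i j := by
  funext i j; revert i j; decide +kernel

theorem MT3 : mulF (mulF MT MT) MT = scF 8 := by
  funext i j; revert i j; decide +kernel

def MF2 : Fin 8 → Fin 8 → ℤ := ![
  ![-2, 0, -2, 0, 0, 0, 2, 2], ![2, 0, 2, 0, 0, 0, 2, 2], ![0, -2, 0, -2, -2, -2, 0, 0],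
  ![0, -2, 0, -2, 2, 2, 0, 0], ![-2, 0, 2, 0, 0, 0, 2, -2], ![0, 2, 0, -2, 2, -2, 0, 0],
  ![-2, 0, 2, 0, 0, 0, -2, 2], ![0, -2, 0, 2, 2, -2, 0, 0]]

theorem MF2_eq : mulF MF MF = MF2 := by
  funext i j; revert i j; decide +kernel

theorem MF5 : mulF (mulF MF2 MF2) MF = scF 32 := by
  funext i j; revert i j; decide +kernel

/-- `M / 2` is orthogonal -/
def trF (M : Fin 8 → Fin 8 → ℤ) : Fin 8 → Fin 8 → ℤ := fun i j => M j i

theorem nsq_lin {M : Fin 8 → Fin 8 → ℤ} (h : mulF (trF M) M = scF 4) (x : Fin 8 → ℚ) :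
    nsq (lin M 2 x) = nsq x := by
  have h1 : nsq (lin M 2 x) = ∑ j, lin (trF M) 1 (lin M 2 x) j * x j / 2 := by
    unfold nsq
    simp only [lin_apply]
    have h2 : ∀ i, ((∑ j, (M i j : ℚ) * x j) / 2) ^ 2 =
        ∑ j, (M i j : ℚ) * ((∑ k, (M i k : ℚ) * x k) / 2) * x j / 2 := by
      intro i
      rw [sq, ← Finset.sum_div, ← mul_div_assoc]
      congr 1
      rw [Finset.mul_sum]
      exact Finset.sum_congr rfl fun j _ => by ring
    rw [Finset.sum_congr rfl fun i _ => h2 i, Finset.sum_comm]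
    refine Finset.sum_congr rfl fun j _ => ?_
    rw [div_one, Finset.sum_mul, Finset.sum_div]
    rfl
  rw [h1, lin_lin, h, lin_sc]
  unfold nsq
  refine Finset.sum_congr rfl fun j _ => ?_
  simp only [Pi.smul_apply, smul_eq_mul]
  push_cast
  ring

theorem orth_MA : mulF (trF MA) MA = scF 4 := by funext i j; revert i j; decide +kernel
theorem orth_MB : mulF (trF MB) MB = scF 4 := by funext i j; revert i j; decide +kernel
theorem orth_MT : mulF (trF MT) MT = scF 4 := by funext i j; revert i j; decide +kernel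
theorem orth_MF : mulF (trF MF) MF = scF 4 := by funext i j; revert i j; decide +kernel

theorem InE8.param {v : Fin 8 → ℤ} (h : InE8 v) :
    ∃ (p m : ℤ) (c : Fin 8 → ℤ), (∀ i, v i = p + 2 * c i) ∧
      c 0 + c 1 + c 2 + c 3 + c 4 + c 5 + c 6 + c 7 = 2 * m := by
  rcases h.cases with ⟨a, ha, ha'⟩ | ⟨a, ha, ha'⟩
  · refine ⟨0, (∑ i, a i) / 2, a, fun i => by rw [ha]; ring, ?_⟩
    rw [← Fin.sum_univ_eight]; omega
  · refine ⟨1, (∑ i, a i) / 2, a, fun i => by rw [ha]; ring, ?_⟩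
    rw [← Fin.sum_univ_eight]; omega

theorem lin_E8 {M : Fin 8 → Fin 8 → ℤ}
    (h : ∀ v, InE8 v → ∃ w, InE8 w ∧ ∀ i, ∑ j, M i j * v j = 2 * w i) :
    ∀ x ∈ E8, lin M 2 x ∈ E8 := by
  rintro x ⟨v, hv, hx⟩
  obtain ⟨w, hw, hw'⟩ := h v hv
  refine ⟨w, hw, fun i => ?_⟩
  rw [lin_apply]
  have h1 : ∑ j, (M i j : ℚ) * x j = ((∑ j, M i j * v j : ℤ) : ℚ) / 2 := by
    push_cast
    rw [Finset.sum_div]
    exact Finset.sum_congr rfl fun j _ => by rw [hx]; ring
  rw [h1, hw' i]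
  push_cast
  ring

theorem inE8_iff (w : Fin 8 → ℤ) (h : ∀ i, (w i - w 0) % 2 = 0)
    (h' : (w 0 + w 1 + w 2 + w 3 + w 4 + w 5 + w 6 + w 7) % 4 = 0) : InE8 w := by
  refine ⟨fun i j => ?_, ?_⟩
  · have a := h i
    have b := h j
    omega
  · rw [Fin.sum_univ_eight]; exact h'

theorem E8_MA : ∀ x ∈ E8, lin MA 2 x ∈ E8 := by
  refine lin_E8 fun v hv => ?_
  obtain ⟨p, m, c, hc, hm⟩ := hv.param
  refine ⟨![- v 3, v 0, v 1, v 2, - v 7, v 4, v 5, v 6], inE8_iff _ ?_ ?_, ?_⟩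
  · intro i
    fin_cases i <;> simp [hc] <;> omega
  · simp [hc]; omega
  · intro i
    rw [Fin.sum_univ_eight]
    fin_cases i <;> simp [MA]

theorem E8_MB : ∀ x ∈ E8, lin MB 2 x ∈ E8 := by
  refine lin_E8 fun v hv => ?_
  obtain ⟨p, m, c, hc, hm⟩ := hv.param
  refine ⟨![- v 4, v 7, v 6, v 5, v 0, - v 3, - v 2, - v 1], inE8_iff _ ?_ ?_, ?_⟩
  · intro i
    fin_cases i <;> simp [hc] <;> omega
  · simp [hc]; omega
  · intro i
    rw [Fin.sum_univ_eight]
    fin_cases i <;> simp [MB]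

theorem E8_MT : ∀ x ∈ E8, lin MT 2 x ∈ E8 := by
  refine lin_E8 fun v hv => ?_
  obtain ⟨p, m, c, hc, hm⟩ := hv.param
  refine ⟨![- 2 * p - c 0 - c 1 - c 2 - c 3, c 0 - c 1 - c 2 + c 3, c 0 + c 1 - c 2 - c 3,
    c 0 - c 1 + c 2 - c 3, - 2 * p - c 4 - c 5 - c 6 - c 7, c 4 - c 5 - c 6 + c 7,
    c 4 + c 5 - c 6 - c 7, c 4 - c 5 + c 6 - c 7], inE8_iff _ ?_ ?_, ?_⟩
  · intro i
    fin_cases i <;> simp <;> omega
  · simp; omega
  · intro i
    rw [Fin.sum_univ_eight]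
    fin_cases i <;> simp [MT, hc] <;> ring

theorem E8_MF : ∀ x ∈ E8, lin MF 2 x ∈ E8 := by
  refine lin_E8 fun v hv => ?_
  obtain ⟨p, m, c, hc, hm⟩ := hv.param
  refine ⟨![- p - c 1 - c 3 + c 6 - c 7, - p - c 1 + c 3 - c 6 - c 7, p + c 0 - c 2 + c 4 + c 5,
    p + c 0 + c 2 - c 4 + c 5, - p + c 0 - c 2 - c 4 - c 5, - p - c 1 - c 3 - c 6 + c 7,
    - p - c 0 - c 2 - c 4 + c 5, - p + c 1 - c 3 - c 6 - c 7], inE8_iff _ ?_ ?_, ?_⟩
  · intro i
    fin_cases i <;> simp <;> omega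
  · simp; omega
  · intro i
    rw [Fin.sum_univ_eight]
    fin_cases i <;> simp [MF, hc] <;> ring

theorem A4_apply (x : Fin 8 → ℚ) : (lin MA 2)^[4] x = - x := by
  show lin MA 2 (lin MA 2 (lin MA 2 (lin MA 2 x))) = - x
  rw [lin_lin MA MA 2 2 x, lin_lin MA (mulF MA MA), lin_lin MA]
  have : mulF MA (mulF MA (mulF MA MA)) = scF (-16) := by
    funext i j; revert i j; decide +kernel
  rw [this, lin_sc]
  norm_num

theorem T3_apply (x : Fin 8 → ℚ) : (lin MT 2)^[3] x = x := by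
  show lin MT 2 (lin MT 2 (lin MT 2 x)) = x
  rw [lin_lin MT MT 2 2 x, lin_lin MT (mulF MT MT)]
  have : mulF MT (mulF MT MT) = scF 8 := by
    funext i j; revert i j; decide +kernel
  rw [this, lin_sc]
  norm_num

theorem F5_apply (x : Fin 8 → ℚ) : (lin MF 2)^[5] x = x := by
  show lin MF 2 (lin MF 2 (lin MF 2 (lin MF 2 (lin MF 2 x)))) = x
  rw [lin_lin MF MF 2 2 (lin MF 2 x), lin_lin MF MF 2 2 (lin (mulF MF MF) (2 * 2) (lin MF 2 x)),
    MF2_eq, lin_lin MF2 MF2, lin_lin, MF5, lin_sc]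
  norm_num

theorem B2_apply (x : Fin 8 → ℚ) : lin MB 2 (lin MB 2 x) = - x := by
  rw [lin_lin, MB2, lin_sc]
  norm_num

theorem ABA_apply (x : Fin 8 → ℚ) : lin MA 2 (lin MB 2 (lin MA 2 x)) = lin MB 2 x := by
  rw [lin_lin MA MB, lin_lin, MABA]
  funext i
  simp only [lin_apply]
  rw [show (2 * 2 * 2 : ℚ) = 4 * 2 by norm_num, ← div_div]
  congr 1
  push_cast
  rw [Finset.sum_div]
  exact Finset.sum_congr rfl fun j _ => by ring

theorem T_fix {x : Fin 8 → ℚ} (h : lin MT 2 x = x) : x = 0 := by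
  have h1 : ∀ i, (∑ j, (MT i j : ℚ) * x j) / 2 = x i := fun i => congrFun h i
  have e0 := h1 0
  have e1 := h1 1
  have e2 := h1 2
  have e3 := h1 3
  have e4 := h1 4
  have e5 := h1 5
  have e6 := h1 6
  have e7 := h1 7
  rw [Fin.sum_univ_eight] at e0 e1 e2 e3 e4 e5 e6 e7
  simp [MT] at e0 e1 e2 e3 e4 e5 e6 e7
  funext i
  fin_cases i <;> simp <;> linarith

theorem F_fix {x : Fin 8 → ℚ} (h : lin MF 2 x = x) : x = 0 := by
  have h1 : ∀ i, (∑ j, (MF i j : ℚ) * x j) / 2 = x i := fun i => congrFun h i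
  have e0 := h1 0
  have e1 := h1 1
  have e2 := h1 2
  have e3 := h1 3
  have e4 := h1 4
  have e5 := h1 5
  have e6 := h1 6
  have e7 := h1 7
  rw [Fin.sum_univ_eight] at e0 e1 e2 e3 e4 e5 e6 e7
  simp [MF] at e0 e1 e2 e3 e4 e5 e6 e7
  funext i
  fin_cases i <;> simp <;> linarith

theorem iter_sub {X : Finset (Fin 8 → ℚ)} (f : (Fin 8 → ℚ) → (Fin 8 → ℚ))
    (hf : ∀ x ∈ X, f x ∈ X) (n : ℕ) (x : {x // x ∈ X}) :
    ((fun y : {x // x ∈ X} => (⟨f y.1, hf _ y.2⟩ : {x // x ∈ X}))^[n] x).1 = f^[n] x.1 := by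
  induction n generalizing x with
  | zero => rfl
  | succ n ih => rw [Function.iterate_succ_apply, Function.iterate_succ_apply, ih]

theorem ok_div : S_div := by
  intro X h0 hX
  have hst : ∀ (M : Fin 8 → Fin 8 → ℤ) (n : ℕ), mulF (trF M) M = scF 4 →
      (∀ x ∈ E8, lin M 2 x ∈ E8) → (∀ x, (lin M 2)^[n + 1] x = x) →
      ∀ x ∈ X, lin M 2 x ∈ X := by
    intro M n h1 h2 h3 x hx
    obtain ⟨g, hg, hg'⟩ := aut_of (lin M 2) n h3 (nsq_lin h1) h2
    rw [← hg' x]
    exact hX g hg x hx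
  have hA8 : ∀ x, (lin MA 2)^[7 + 1] x = x := by
    intro x
    have : (lin MA 2)^[7 + 1] x = (lin MA 2)^[4] ((lin MA 2)^[4] x) := by
      rw [← Function.iterate_add_apply]
    rw [this, A4_apply, A4_apply, neg_neg]
  have hB4 : ∀ x, (lin MB 2)^[3 + 1] x = x := by
    intro x
    show lin MB 2 (lin MB 2 (lin MB 2 (lin MB 2 x))) = x
    rw [B2_apply, B2_apply, neg_neg]
  have hA := hst MA 7 orth_MA E8_MA hA8
  have hB := hst MB 3 orth_MB E8_MB hB4
  have hT := hst MT 2 orth_MT E8_MT T3_apply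
  have hF := hst MF 4 orth_MF E8_MF F5_apply
  have hcard : Nat.card {x // x ∈ X} = X.card := by
    rw [Nat.card_eq_fintype_card, Fintype.card_coe]
  have hne : ∀ x : {x // x ∈ X}, x.1 ≠ 0 := fun x hx => h0 (hx ▸ x.2)
  have d16 : 16 ∣ X.card := by
    rw [← hcard]
    refine sixteen_dvd (fun y : {x // x ∈ X} => ⟨lin MA 2 y.1, hA _ y.2⟩)
      (fun y : {x // x ∈ X} => ⟨lin MB 2 y.1, hB _ y.2⟩)
      ((fun y : {x // x ∈ X} => (⟨lin MA 2 y.1, hA _ y.2⟩ : {x // x ∈ X}))^[4])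
      (fun x => rfl) ?_ ?_ ?_ ?_
    · intro x
      apply Subtype.ext
      rw [iter_sub (lin MA 2) hA, iter_sub (lin MA 2) hA, A4_apply, A4_apply, neg_neg]
    · intro x hx
      have h1 := congrArg Subtype.val hx
      rw [iter_sub (lin MA 2) hA, A4_apply] at h1
      exact hne x (self_eq_neg.mp h1.symm)
    · intro x
      apply Subtype.ext
      rw [iter_sub (lin MA 2) hA, A4_apply]
      exact B2_apply x.1
    · intro x
      apply Subtype.ext
      exact ABA_apply x.1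
  have d3 : 3 ∣ X.card := by
    rw [← hcard]
    have : Fact (Nat.Prime 3) := ⟨by norm_num⟩
    refine prime_dvd 3 (fun y : {x // x ∈ X} => ⟨lin MT 2 y.1, hT _ y.2⟩) ?_ ?_
    · intro x
      apply Subtype.ext
      rw [iter_sub (lin MT 2) hT, T3_apply]
    · intro x hx
      exact hne x (T_fix (congrArg Subtype.val hx))
  have d5 : 5 ∣ X.card := by
    rw [← hcard]
    have : Fact (Nat.Prime 5) := ⟨by norm_num⟩
    refine prime_dvd 5 (fun y : {x // x ∈ X} => ⟨lin MF 2 y.1, hF _ y.2⟩) ?_ ?_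
    · intro x
      apply Subtype.ext
      rw [iter_sub (lin MF 2) hF, F5_apply]
    · intro x hx
      exact hne x (F_fix (congrArg Subtype.val hx))
  omega

end Pool.Agent.H159.EW
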